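import Pool.Agent.L0h86.F3.Mat
import Pool.Agent.L0h23.FC.Fin
import Pool.Agent.L0h61.T5.LinC

/-!
# The matrix of `2 m` over the field with two elements
-/

set_option autoImplicit false
set_option linter.unusedSectionVars false

namespace Pool.Agent.L0h4.T5

open Pool.Agent.W192.HK Pool.Agent.Y696 Pool.Agent.Y715.T.Lat
open Pool.Agent.Y698.SG (ix lg lg_one lg_neg_one lg_mul sgn_mul sgn_prod mem_ix)
open Pool.Agent.L0h23.FDE (Sys eD cI cI_cI cI_mem pf_cI sum_sub)
open Pool.Agent.L0h86.F3 Pool.Agent.L0h86.F5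
open Pool.Agent.L0h80.F3 (fx ix_PX ix_cases disj)

/-- the matrix of `D = 2 m`: the matrix `mM D` with one more column, row and the entry `t` -/
noncomputable def mC (D : ℕ) : Matrix (Option (pset D)) (Option (pset D)) (ZMod 2) :=
  Matrix.of fun i j => match i, j with
    | some i, some j => mM D i j
    | some i, none => nsq (-2) i
    | none, some j => nsq la j
    | none, none => if D % 8 = 2 then 1 else 0

lemma pset_two (m : ℕ) : pset (2 * m) = pset m := by
  ext x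
  constructor
  · rintro ⟨h1, h2, h3, h4⟩
    refine ⟨fun h => h1 (by rw [h]), h2, ?_, h4⟩
    have h5 : ((2 * m : ℕ) : eis) = 2 * (m : eis) := by push_cast; ring
    rw [h5] at h3
    rcases h2.dvd_or_dvd h3 with h6 | h6
    · exfalso
      obtain ⟨u, hu⟩ := h4
      apply h2.not_isUnit
      apply isUnit_of_dvd_one
      have e : (1 : eis) = x - 2 * (la * u) := by linear_combination -hu
      rw [e]
      exact dvd_sub dvd_rfl (h6.mul_right _)
    · exact h6
  · rintro ⟨h1, h2, h3, h4⟩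
    refine ⟨by omega, h2, ?_, h4⟩
    have h5 : ((2 * m : ℕ) : eis) = 2 * (m : eis) := by push_cast; ring
    rw [h5]
    exact h3.mul_left _

section
variable {Q P : Finset ℕ} {ϖ : ℕ → eis}

/-- the bijection of the two sets of indices -/
noncomputable def eiC (h : Dt Q P ϖ) {m : ℕ} (hm : m = ∏ q ∈ Q ∪ P, q) : ix Q P ≃ pset (2 * m) :=
  (eix h hm).trans (Equiv.setCongr (pset_two m).symm)

lemma eiC_coe (h : Dt Q P ϖ) {m : ℕ} (hm : m = ∏ q ∈ Q ∪ P, q) (i : ix Q P) :
    ((eiC h hm i : pset (2 * m)) : eis) = pf Q ϖ i.1 := rfl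

lemma two_notin {y : eis} (h : PX y) : (2 : eis) ∉ sp y := by
  intro h2
  rw [Ideal.mem_span_singleton] at h2
  obtain ⟨u, hu⟩ := h.n1
  apply h.pr.not_isUnit
  apply isUnit_of_dvd_one
  have e : (1 : eis) = y - 2 * (la * u) := by rw [hu]; ring
  rw [e]
  exact dvd_sub dvd_rfl (h2.mul_right _)

lemma la_notin {y : eis} (h : PX y) : (la : eis) ∉ sp y := by
  intro h2
  rw [Ideal.mem_span_singleton] at h2
  obtain ⟨u, hu⟩ := h.n1
  apply h.pr.not_isUnit
  apply isUnit_of_dvd_one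
  have e : (1 : eis) = y - la * (2 * u) := by rw [hu]; ring
  rw [e]
  exact dvd_sub dvd_rfl (h2.mul_right _)

lemma nsq_mul {x z y : eis} (hy : Prime y) (hx : x ∉ sp y) (hz : z ∉ sp y) :
    nsq (x * z) y = nsq x y + nsq z y := by
  have hxz : x * z ∉ sp y := by
    intro h
    rw [Ideal.mem_span_singleton] at h
    rcases hy.dvd_or_dvd h with h | h
    · exact hx (Ideal.mem_span_singleton.2 h)
    · exact hz (Ideal.mem_span_singleton.2 h)
  rw [nsq_sy hxz, nsq_sy hx, nsq_sy hz, sy_mul' hy, lg_mul (sy_sgn hx) (sy_sgn hz)]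

/-- the symbol of `2` -/
lemma nsq_two {π : ℕ × Bool → eis} {j : ℕ × Bool} (h : PX (π j)) :
    nsq 2 (π j) = e2 π j + F4.tr (bt (π j)) := by
  have h1 := neg_one_notin h.pr
  have h2 := two_notin h
  have h3 : (-2 : eis) ∉ sp (π j) := by
    rw [Ideal.mem_span_singleton, dvd_neg, ← Ideal.mem_span_singleton]
    exact h2
  have e : (2 : eis) = (-2) * (-1) := by ring
  rw [e, nsq_mul h.pr h3 h1, nsq_sy h3, nsq_sy h1, (Pool.Agent.L0h23.FR.t_SUP _ h).1]
  rfl

lemma nsq_m2 {π : ℕ × Bool → eis} {j : ℕ × Bool} (h : PX (π j)) :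
    nsq (-2) (π j) = e2 π j := by
  have h2 := two_notin h
  have h3 : (-2 : eis) ∉ sp (π j) := by
    rw [Ideal.mem_span_singleton, dvd_neg, ← Ideal.mem_span_singleton]
    exact h2
  rw [nsq_sy h3]
  rfl

/-- the diagonal -/
lemma nsdC_eq (h : Dt Q P ϖ) {m : ℕ} (hm : m = ∏ q ∈ Q ∪ P, q) {j : ℕ × Bool} (hj : j ∈ ix Q P) :
    nsd (2 * m) (pf Q ϖ j) = ∑ i ∈ (ix Q P).erase j, mm (pf Q ϖ) i j + e2 (pf Q ϖ) j +
      (1 + eD m) * F4.tr (bt (pf Q ϖ j)) + F4.tr (F4.w * bt (pf Q ϖ j)) := by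
  classical
  have hF := fx h
  have hP := hF.pd j hj
  have hpr := hP.pr
  have h1 : ∀ i ∈ (ix Q P).erase j, pf Q ϖ i ∉ sp (pf Q ϖ j) := fun i hi =>
    hF.ne i (Finset.mem_of_mem_erase hi) j hj (Finset.ne_of_mem_erase hi)
  obtain ⟨U, hU, hmU⟩ : ∃ U : eis, U ∉ sp (pf Q ϖ j) ∧ (m : eis) = pf Q ϖ j * U := by
    have hU0 : ∏ i ∈ (ix Q P).erase j, pf Q ϖ i ∉ sp (pf Q ϖ j) := by
      intro h2
      rw [Ideal.mem_span_singleton] at h2
      obtain ⟨i, hi, h3⟩ := (Prime.dvd_finsetProd_iff hpr _).1 h2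
      exact h1 i hi (Ideal.mem_span_singleton.2 h3)
    have h2 : ∏ i ∈ ix Q P, pf Q ϖ i = pf Q ϖ j * ∏ i ∈ (ix Q P).erase j, pf Q ϖ i :=
      (Finset.mul_prod_erase _ _ hj).symm
    rcases Pool.Agent.L0h80.F3.prod_pf h hm with ⟨h3, h4⟩ | ⟨h3, h4⟩
    · exact ⟨_, hU0, by rw [← h2, h3]⟩
    · refine ⟨-∏ i ∈ (ix Q P).erase j, pf Q ϖ i, ?_, ?_⟩
      · rw [Ideal.mem_span_singleton, dvd_neg, ← Ideal.mem_span_singleton]
        exact hU0
      · linear_combination h3 - h2
  have h2 := two_notin hP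
  have hla := la_notin hP
  have hlaU : la * U ∉ sp (pf Q ϖ j) := by
    intro h
    rw [Ideal.mem_span_singleton] at h
    rcases hpr.dvd_or_dvd h with h | h
    · exact hla (Ideal.mem_span_singleton.2 h)
    · exact hU (Ideal.mem_span_singleton.2 h)
  have hkey : ∀ (D : ℕ) (V : eis), (D : eis) = pf Q ϖ j * V →
      nsd D (pf Q ϖ j) = nsq (la * V) (pf Q ϖ j) := by
    intro D V hV
    unfold nsd nsq
    have e : (∃ u z : eis, (D : eis) = pf Q ϖ j * u ∧ pf Q ϖ j ∣ la * u - z ^ 2) ↔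
        ∃ z : eis, pf Q ϖ j ∣ la * V - z ^ 2 := by
      constructor
      · rintro ⟨u, z, h2, h3⟩
        have : u = V := mul_left_cancel₀ hpr.ne_zero (h2.symm.trans hV)
        exact ⟨z, this ▸ h3⟩
      · rintro ⟨z, h3⟩
        exact ⟨V, z, hV, h3⟩
    simp only [e]
  have h3 := hkey m U hmU
  have h4 := hkey (2 * m) (2 * U) (by push_cast; linear_combination 2 * hmU)
  rw [h4, show la * (2 * U) = 2 * (la * U) by ring, nsq_mul hpr h2 hlaU, ← h3,
    nsd_eq h hm hj, nsq_two hP]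
  ring

/-- **the two forms of the criterion** -/
theorem sys8_iff (h : Dt Q P ϖ) {m : ℕ} (hm : m = ∏ q ∈ Q ∪ P, q) :
    Sys8 (ix Q P) (cI Q) (fun i => bt (pf Q ϖ i)) (mm (pf Q ϖ)) (e2 (pf Q ϖ)) (eD m) (tm m) ↔
      (mC (2 * m)).det ≠ 0 := by
  classical
  have hF := fx h
  have hM : (mC (2 * m)).det ≠ 0 ↔
      ∀ x : Option (pset (2 * m)) → ZMod 2, Matrix.mulVec (mC (2 * m)) x = 0 → x = 0 := by
    rw [← not_iff_not, not_not, ← Matrix.exists_mulVec_eq_zero_iff]
    push Not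
    exact ⟨fun ⟨x, h1, h2⟩ => ⟨x, h2, h1⟩, fun ⟨x, h1, h2⟩ => ⟨x, h2, h1⟩⟩
  rw [hM]
  -- the rows
  have hrow : ∀ (X : ℕ × Bool → ZMod 2) (x : Option (pset (2 * m)) → ZMod 2),
      (∀ i : ix Q P, x (some (eiC h hm i)) = X i) → ∀ j (hj : j ∈ ix Q P),
      Matrix.mulVec (mC (2 * m)) x (some (eiC h hm ⟨j, hj⟩)) =
        ∑ i ∈ (ix Q P).erase j, mm (pf Q ϖ) i j * X i +
      (∑ i ∈ (ix Q P).erase j, mm (pf Q ϖ) i j + e2 (pf Q ϖ) j +
        (1 + eD m) * F4.tr (bt (pf Q ϖ j)) + F4.tr (F4.w * bt (pf Q ϖ j))) * X j +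
      F4.tr (bt (pf Q ϖ j)) * X (cI Q j) + e2 (pf Q ϖ) j * x none := by
    intro X x hX j hj
    have hP := hF.pd j hj
    have hm1 : nsq (-1) (pf Q ϖ j) = F4.tr (bt (pf Q ϖ j)) := by
      rw [nsq_sy (neg_one_notin hP.pr)]
      exact (Pool.Agent.L0h23.FR.t_SUP _ hP).1
    have hent : ∀ i : ix Q P, mC (2 * m) (some (eiC h hm ⟨j, hj⟩)) (some (eiC h hm i)) =
        if i = ⟨j, hj⟩ then nsd (2 * m) (pf Q ϖ j) else mm (pf Q ϖ) i j +
          if i.1 = cI Q j then F4.tr (bt (pf Q ϖ j)) else 0 := by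
      intro i
      show mM (2 * m) (eiC h hm ⟨j, hj⟩) (eiC h hm i) = _
      unfold mM
      rw [Matrix.of_apply]
      by_cases hij : i = ⟨j, hj⟩
      · rw [if_pos hij, if_pos (by rw [hij])]
        rfl
      · rw [if_neg hij, if_neg (fun h1 => hij ((eiC h hm).injective h1).symm)]
        have h1 : i.1 ≠ j := fun h2 => hij (Subtype.ext h2)
        have h3 := hF.ne i.1 i.2 j hj h1
        have h4 : ((eiC h hm i : pset (2 * m)) : eis) = cj (eiC h hm ⟨j, hj⟩ : pset (2 * m)) ↔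
            i.1 = cI Q j := by
          rw [eiC_coe, eiC_coe]
          show pf Q ϖ i.1 = cj (pf Q ϖ j) ↔ _
          rw [← pf_cI]
          exact ⟨fun h5 => Dt_inj h i.2 (cI_mem hj) h5, fun h5 => by rw [h5]⟩
        simp only [h4]
        rw [eiC_coe, eiC_coe, hm1, nsq_sy h3]
        rfl
    have h1 : Matrix.mulVec (mC (2 * m)) x (some (eiC h hm ⟨j, hj⟩)) =
        ∑ i : ix Q P, mC (2 * m) (some (eiC h hm ⟨j, hj⟩)) (some (eiC h hm i)) * X i +
          e2 (pf Q ϖ) j * x none := by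
      unfold Matrix.mulVec dotProduct
      rw [Fintype.sum_option, ← (eiC h hm).sum_comp, add_comm]
      congr 1
      · exact Finset.sum_congr rfl fun i _ => by rw [hX i]
      · show nsq (-2) (eiC h hm ⟨j, hj⟩ : pset (2 * m)) * _ = _
        rw [eiC_coe, nsq_m2 (π := pf Q ϖ) hP]
    rw [h1, ← Finset.add_sum_erase _ _ (Finset.mem_univ (⟨j, hj⟩ : ix Q P)), hent, if_pos rfl,
      nsdC_eq h hm hj]
    have h2 : ∑ i ∈ (Finset.univ : Finset (ix Q P)).erase ⟨j, hj⟩,
        mC (2 * m) (some (eiC h hm ⟨j, hj⟩)) (some (eiC h hm i)) * X i =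
        ∑ i ∈ (ix Q P).erase j, (mm (pf Q ϖ) i j +
          if i = cI Q j then F4.tr (bt (pf Q ϖ j)) else 0) * X i := by
      rw [← sum_sub (ix Q P) ⟨j, hj⟩ fun i => (mm (pf Q ϖ) i j +
          if i = cI Q j then F4.tr (bt (pf Q ϖ j)) else 0) * X i]
      refine Finset.sum_congr rfl fun i hi => ?_
      rw [hent, if_neg (Finset.ne_of_mem_erase hi)]
    have h3 : ∑ i ∈ (ix Q P).erase j, (mm (pf Q ϖ) i j +
          if i = cI Q j then F4.tr (bt (pf Q ϖ j)) else 0) * X i =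
        ∑ i ∈ (ix Q P).erase j, mm (pf Q ϖ) i j * X i +
          F4.tr (bt (pf Q ϖ j)) * X (cI Q j) := by
      have h4 : ∀ i ∈ (ix Q P).erase j, (mm (pf Q ϖ) i j +
          if i = cI Q j then F4.tr (bt (pf Q ϖ j)) else 0) * X i =
          mm (pf Q ϖ) i j * X i +
            if i = cI Q j then F4.tr (bt (pf Q ϖ j)) * X (cI Q j) else 0 := by
        intro i _
        by_cases h5 : i = cI Q j
        · rw [if_pos h5, if_pos h5, h5]
          ring
        · rw [if_neg h5, if_neg h5]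
          ring
      rw [Finset.sum_congr rfl h4, Finset.sum_add_distrib, Finset.sum_ite_eq']
      congr 1
      by_cases h5 : cI Q j = j
      · rw [if_neg (by rw [h5]; exact Finset.notMem_erase _ _)]
        have h6 : F4.cj (bt (pf Q ϖ j)) = bt (pf Q ϖ j) := by
          rw [← Pool.Agent.L0h80.F3.bt_cj (hF.pd j hj).n1, ← pf_cI, h5]
        have h7 : F4.tr (bt (pf Q ϖ j)) = 0 := by
          revert h6
          generalize bt (pf Q ϖ j) = a
          revert a
          decide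
        rw [h7, zero_mul]
      · rw [if_pos (Finset.mem_erase.2 ⟨h5, cI_mem hj⟩)]
    rw [h2, h3]
    ring
  -- the last row
  have hlast : ∀ (X : ℕ × Bool → ZMod 2) (x : Option (pset (2 * m)) → ZMod 2),
      (∀ i : ix Q P, x (some (eiC h hm i)) = X i) →
      Matrix.mulVec (mC (2 * m)) x none =
        ∑ i ∈ ix Q P, F4.tr (F4.w * bt (pf Q ϖ i)) * X i + tm m * x none := by
    intro X x hX
    unfold Matrix.mulVec dotProduct
    rw [Fintype.sum_option, ← (eiC h hm).sum_comp, add_comm]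
    congr 1
    · rw [← Finset.sum_coe_sort (ix Q P)]
      refine Finset.sum_congr rfl fun i _ => ?_
      rw [hX i]
      show nsq la (eiC h hm i : pset (2 * m)) * _ = _
      rw [eiC_coe, nsq_sy (la_notin (hF.pd i.1 i.2)),
        (Pool.Agent.L0h23.FR.t_SUP _ (hF.pd i.1 i.2)).2]
    · congr 1
      show (if (2 * m) % 8 = 2 then (1 : ZMod 2) else 0) = _
      unfold tm
      have : (2 * m) % 8 = 2 ↔ m % 4 = 1 := by omega
      simp only [this]
  constructor
  · intro hs x hx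
    set X : ℕ × Bool → ZMod 2 := fun i => if hi : i ∈ ix Q P then x (some (eiC h hm ⟨i, hi⟩)) else 0
      with hXd
    have hX : ∀ i : ix Q P, x (some (eiC h hm i)) = X i := fun i => by rw [hXd]; beta_reduce; rw [dif_pos i.2]
    have h1 := hs X (x none) (fun j hj => by
      have h2 := hrow X x hX j hj
      rw [hx] at h2
      exact h2.symm) (by
      have h2 := hlast X x hX
      rw [hx] at h2
      exact h2.symm)
    funext y
    cases y with
    | none => exact h1.2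
    | some y =>
      obtain ⟨i, rfl⟩ := (eiC h hm).surjective y
      rw [hX i]
      exact h1.1 i.1 i.2
  · intro hs X a hX ha
    set x : Option (pset (2 * m)) → ZMod 2 := fun y => match y with
      | none => a
      | some y => X ((eiC h hm).symm y) with hxd
    have hxX : ∀ i : ix Q P, x (some (eiC h hm i)) = X i := fun i => by
      show X ((eiC h hm).symm (eiC h hm i)) = _
      rw [Equiv.symm_apply_apply]
    have h1 := hs x (by
      funext y
      cases y with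
      | none => rw [hlast X x hxX]; exact ha
      | some y =>
        obtain ⟨j, rfl⟩ := (eiC h hm).surjective y
        rw [hrow X x hxX j.1 j.2]
        exact hX j.1 j.2)
    refine ⟨fun i hi => ?_, congrFun h1 none⟩
    have h3 := congrFun h1 (some (eiC h hm ⟨i, hi⟩))
    rw [hxX] at h3
    exact h3

/-- **the criterion in the intrinsic form** -/
theorem cr8_iff (h : Dt Q P ϖ) {m : ℕ} (hm : m = ∏ q ∈ Q ∪ P, q) :
    Cr8 Q P ϖ m ↔ (mC (2 * m)).det ≠ 0 :=
  (Pool.Agent.L0h23.FCE.cr8_sys Pool.Agent.L0h80.F3.t_GEN Pool.Agent.L0h23.FR.t_REC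
    Pool.Agent.L0h61.T5.t_LINC h hm).trans (sys8_iff h hm)

end

end Pool.Agent.L0h4.T5
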