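import Pool.Agent.L0h4.T5.Vn8
import Pool.Agent.L0h86.F3.Cor

/-!
# The central values of the `L`-series of `y² = x³ - 8 m³`: unconditional
-/

set_option autoImplicit false

namespace Pool.Agent.L0h4.T5

open Pool.Agent.L0h86.F5

theorem t_VALC : S_VALC :=
  valC_of t_EV8 Pool.Agent.L0h4.T3.t_PSI Pool.Agent.L0h80.F3.t_HCD Pool.Agent.L0h80.F3.t_GEN

end Pool.Agent.L0h4.T5
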