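import Pool.Agent.L0h86.F5.Def

/-!
# The distribution relations of the functions of class (c)
-/

set_option autoImplicit false
set_option linter.unusedSectionVars false

open Filter
open scoped Topology PeriodPair

namespace Pool.Agent.L0h4.T5

open H667R3 Pool.Agent.W192.HK Pool.Agent.TH936.CM
open Pool.Agent.TH936.PU hiding pf
open Pool.Agent.Y696 Pool.Agent.Y715.T.Lat
open Pool.Agent.L0h86.F3 hiding Bv_eq unit_mod6
open Pool.Agent.L0h4.T4
open Pool.Agent.L0h86.F5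
open Pool.Agent.Y698.SG (lg lg_one lg_neg_one lg_mul sgn_mul sgn_prod ix)

variable {L : PeriodPair} {Ω : ℂ} {Γ : Type*} [LinearOrderedCommGroupWithZero Γ]
  {v : Valuation ℂ Γ}

/-- the character and the sign -/
def M8 (χ : MulChar (ZMod 8) ℤ) (s : ℂ) : Prop := (χ = ZMod.χ₈' ∧ s = -1) ∨ (χ = ZMod.χ₈ ∧ s = 1)

lemma M8.x8 {χ : MulChar (ZMod 8) ℤ} {s : ℂ} (h : M8 χ s) : X8 χ := by
  rcases h with ⟨rfl, -⟩ | ⟨rfl, -⟩
  · exact x8_two
  · exact x8_one

lemma M8.sq {χ : MulChar (ZMod 8) ℤ} {s : ℂ} (h : M8 χ s) : s * s = 1 := by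
  rcases h with ⟨-, rfl⟩ | ⟨-, rfl⟩ <;> norm_num

lemma m8_chr (m : ℕ) : M8 (chr8 m) (sm m) := by
  unfold chr8 sm
  by_cases h : m % 4 = 1
  · left
    rw [if_pos h, if_pos h]
    exact ⟨rfl, rfl⟩
  · right
    rw [if_neg h, if_neg h]
    exact ⟨rfl, rfl⟩

/-- the sign of a residue class modulo two -/
noncomputable def sg (r : eis) : ℂ := if F4.tr (rho r) = 0 then 1 else -1

lemma sg_ez_even (a d : ℤ) : sg (ez a (2 * d)) = 1 := by
  unfold sg
  rw [rho_ez, if_pos]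
  show ((2 * d : ℤ) : ZMod 2) = 0
  push_cast
  have : (2 : ZMod 2) = 0 := by decide
  rw [this, zero_mul]

lemma sg_ez_odd (a d : ℤ) : sg (ez a (2 * d + 1)) = -1 := by
  unfold sg
  rw [rho_ez, if_neg]
  show ¬ ((2 * d + 1 : ℤ) : ZMod 2) = 0
  push_cast
  have : (2 : ZMod 2) = 0 := by decide
  rw [this, zero_mul, zero_add]
  exact one_ne_zero

lemma sg_add (r t : eis) : sg (r + t) = sg r * sg t := by
  obtain ⟨a, b, rfl⟩ := ez_ex r
  obtain ⟨c, d, rfl⟩ := ez_ex t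
  rw [ez_add]
  rcases Int.even_or_odd' b with ⟨k, rfl | rfl⟩ <;> rcases Int.even_or_odd' d with ⟨l, rfl | rfl⟩
  · rw [sg_ez_even, sg_ez_even, ← mul_add, sg_ez_even, mul_one]
  · rw [sg_ez_even, sg_ez_odd, ← add_assoc, ← mul_add, sg_ez_odd, one_mul]
  · rw [sg_ez_even, sg_ez_odd, show 2 * k + 1 + 2 * l = 2 * (k + l) + 1 by ring, sg_ez_odd, mul_one]
  · rw [sg_ez_odd, sg_ez_odd, show 2 * k + 1 + (2 * l + 1) = 2 * (k + l + 1) by ring, sg_ez_even]
    norm_num

lemma sg_sq (r : eis) : sg r * sg r = 1 := by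
  unfold sg
  split_ifs <;> norm_num

lemma G1_sh (hL : IsLat L eis Ω) (z : ℂ) (r : eis) : G1 Ω (z + Ω * r / 2) = sg r * G1 Ω z :=
  G1_shift hL z r

lemma la_ez (a b : ℤ) : la * ez a b = ez (a - 2 * b) (2 * a - b) := by
  unfold la
  rw [ez_mul]
  congr 1 <;> ring

/-- the values of the characters -/
lemma c8_gen {χ : MulChar (ZMod 8) ℤ} {s : ℂ} (h : M8 χ s) (a b : ℤ) :
    c8I χ (sp (1 + 2 * la * ez (2 * a) (2 * b))) = sg (ez a b) ∧
    c8I χ (sp (1 + 2 * la * ez (2 * a + 1) (2 * b))) = -sg (ez a b) ∧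
    c8I χ (sp (1 + 2 * la * ez (2 * a) (2 * b + 1))) = s * sg (ez a b) ∧
    c8I χ (sp (1 + 2 * la * ez (2 * a + 1) (2 * b + 1))) = s * sg (ez a b) := by
  have key : ∀ x y : ℤ, c8I χ (sp (1 + 2 * la * ez x y)) = ((χ ((1 + 4 * (x - 2 * y) +
      4 * (x - 2 * y) ^ 2 - 2 * (2 * x - y) - 4 * (x - 2 * y) * (2 * x - y) +
      4 * (2 * x - y) ^ 2 : ℤ) : ZMod 8) : ℤ) : ℂ) := by
    intro x y
    rw [mul_assoc, la_ez]
    unfold c8I
    rw [card_odd]
  rw [key, key, key, key]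
  rcases Int.even_or_odd' b with ⟨d, rfl | rfl⟩
  · rw [sg_ez_even]
    have k1 : ((1 + 4 * (2 * a - 2 * (2 * (2 * d))) + 4 * (2 * a - 2 * (2 * (2 * d))) ^ 2 -
        2 * (2 * (2 * a) - 2 * (2 * d)) - 4 * (2 * a - 2 * (2 * (2 * d))) *
        (2 * (2 * a) - 2 * (2 * d)) + 4 * (2 * (2 * a) - 2 * (2 * d)) ^ 2 : ℤ) : ZMod 8) = 1 := by
      push_cast
      generalize (a : ZMod 8) = x
      generalize (d : ZMod 8) = y
      revert x y
      decide
    have k2 : ((1 + 4 * (2 * a + 1 - 2 * (2 * (2 * d))) + 4 * (2 * a + 1 - 2 * (2 * (2 * d))) ^ 2 -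
        2 * (2 * (2 * a + 1) - 2 * (2 * d)) - 4 * (2 * a + 1 - 2 * (2 * (2 * d))) *
        (2 * (2 * a + 1) - 2 * (2 * d)) + 4 * (2 * (2 * a + 1) - 2 * (2 * d)) ^ 2 : ℤ) :
        ZMod 8) = 5 := by
      push_cast
      generalize (a : ZMod 8) = x
      generalize (d : ZMod 8) = y
      revert x y
      decide
    have k3 : ((1 + 4 * (2 * a - 2 * (2 * (2 * d) + 1)) + 4 * (2 * a - 2 * (2 * (2 * d) + 1)) ^ 2 -
        2 * (2 * (2 * a) - (2 * (2 * d) + 1)) - 4 * (2 * a - 2 * (2 * (2 * d) + 1)) *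
        (2 * (2 * a) - (2 * (2 * d) + 1)) + 4 * (2 * (2 * a) - (2 * (2 * d) + 1)) ^ 2 : ℤ) :
        ZMod 8) = 7 := by
      push_cast
      generalize (a : ZMod 8) = x
      generalize (d : ZMod 8) = y
      revert x y
      decide
    have k4 : ((1 + 4 * (2 * a + 1 - 2 * (2 * (2 * d) + 1)) +
        4 * (2 * a + 1 - 2 * (2 * (2 * d) + 1)) ^ 2 -
        2 * (2 * (2 * a + 1) - (2 * (2 * d) + 1)) - 4 * (2 * a + 1 - 2 * (2 * (2 * d) + 1)) *
        (2 * (2 * a + 1) - (2 * (2 * d) + 1)) + 4 * (2 * (2 * a + 1) - (2 * (2 * d) + 1)) ^ 2 : ℤ) :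
        ZMod 8) = 7 := by
      push_cast
      generalize (a : ZMod 8) = x
      generalize (d : ZMod 8) = y
      revert x y
      decide
    rw [k1, k2, k3, k4]
    rcases h with ⟨rfl, rfl⟩ | ⟨rfl, rfl⟩
    · have e1 : ZMod.χ₈' 1 = 1 := by decide
      have e5 : ZMod.χ₈' 5 = -1 := by decide
      have e7 : ZMod.χ₈' 7 = -1 := by decide
      rw [e1, e5, e7]
      norm_num
    · have e1 : ZMod.χ₈ 1 = 1 := by decide
      have e5 : ZMod.χ₈ 5 = -1 := by decide
      have e7 : ZMod.χ₈ 7 = 1 := by decide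
      rw [e1, e5, e7]
      norm_num
  · rw [sg_ez_odd]
    have k1 : ((1 + 4 * (2 * a - 2 * (2 * (2 * d + 1))) + 4 * (2 * a - 2 * (2 * (2 * d + 1))) ^ 2 -
        2 * (2 * (2 * a) - 2 * (2 * d + 1)) - 4 * (2 * a - 2 * (2 * (2 * d + 1))) *
        (2 * (2 * a) - 2 * (2 * d + 1)) + 4 * (2 * (2 * a) - 2 * (2 * d + 1)) ^ 2 : ℤ) :
        ZMod 8) = 5 := by
      push_cast
      generalize (a : ZMod 8) = x
      generalize (d : ZMod 8) = y
      revert x y
      decide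
    have k2 : ((1 + 4 * (2 * a + 1 - 2 * (2 * (2 * d + 1))) +
        4 * (2 * a + 1 - 2 * (2 * (2 * d + 1))) ^ 2 -
        2 * (2 * (2 * a + 1) - 2 * (2 * d + 1)) - 4 * (2 * a + 1 - 2 * (2 * (2 * d + 1))) *
        (2 * (2 * a + 1) - 2 * (2 * d + 1)) + 4 * (2 * (2 * a + 1) - 2 * (2 * d + 1)) ^ 2 : ℤ) :
        ZMod 8) = 1 := by
      push_cast
      generalize (a : ZMod 8) = x
      generalize (d : ZMod 8) = y
      revert x y
      decide
    have k3 : ((1 + 4 * (2 * a - 2 * (2 * (2 * d + 1) + 1)) +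
        4 * (2 * a - 2 * (2 * (2 * d + 1) + 1)) ^ 2 -
        2 * (2 * (2 * a) - (2 * (2 * d + 1) + 1)) - 4 * (2 * a - 2 * (2 * (2 * d + 1) + 1)) *
        (2 * (2 * a) - (2 * (2 * d + 1) + 1)) + 4 * (2 * (2 * a) - (2 * (2 * d + 1) + 1)) ^ 2 : ℤ) :
        ZMod 8) = 3 := by
      push_cast
      generalize (a : ZMod 8) = x
      generalize (d : ZMod 8) = y
      revert x y
      decide
    have k4 : ((1 + 4 * (2 * a + 1 - 2 * (2 * (2 * d + 1) + 1)) +
        4 * (2 * a + 1 - 2 * (2 * (2 * d + 1) + 1)) ^ 2 -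
        2 * (2 * (2 * a + 1) - (2 * (2 * d + 1) + 1)) -
        4 * (2 * a + 1 - 2 * (2 * (2 * d + 1) + 1)) *
        (2 * (2 * a + 1) - (2 * (2 * d + 1) + 1)) +
        4 * (2 * (2 * a + 1) - (2 * (2 * d + 1) + 1)) ^ 2 : ℤ) : ZMod 8) = 3 := by
      push_cast
      generalize (a : ZMod 8) = x
      generalize (d : ZMod 8) = y
      revert x y
      decide
    rw [k1, k2, k3, k4]
    rcases h with ⟨rfl, rfl⟩ | ⟨rfl, rfl⟩
    · have e1 : ZMod.χ₈' 1 = 1 := by decide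
      have e5 : ZMod.χ₈' 5 = -1 := by decide
      have e3 : ZMod.χ₈' 3 = 1 := by decide
      rw [e1, e5, e3]
      norm_num
    · have e1 : ZMod.χ₈ 1 = 1 := by decide
      have e5 : ZMod.χ₈ 5 = -1 := by decide
      have e3 : ZMod.χ₈ 3 = -1 := by decide
      rw [e1, e5, e3]
      norm_num

lemma two_ez (a b : ℤ) : (2 : eis) * ez a b = ez (2 * a) (2 * b) := by
  unfold ez
  push_cast
  ring

section
variable {χ : MulChar (ZMod 8) ℤ} {s : ℂ} (h : M8 χ s)
include h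

lemma c8_0 (r : eis) : c8I χ (sp (1 + 2 * la * (0 + 2 * r))) = sg r := by
  obtain ⟨a, b, rfl⟩ := ez_ex r
  rw [zero_add, two_ez]
  exact (c8_gen h a b).1

lemma c8_1 (r : eis) : c8I χ (sp (1 + 2 * la * (1 + 2 * r))) = -sg r := by
  obtain ⟨a, b, rfl⟩ := ez_ex r
  have e : (1 : eis) + 2 * ez a b = ez (2 * a + 1) (2 * b) := by
    unfold ez
    push_cast
    ring
  rw [e]
  exact (c8_gen h a b).2.1

lemma c8_w (r : eis) : c8I χ (sp (1 + 2 * la * (omr + 2 * r))) = s * sg r := by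
  obtain ⟨a, b, rfl⟩ := ez_ex r
  have e : (omr : eis) + 2 * ez a b = ez (2 * a) (2 * b + 1) := by
    unfold ez
    push_cast
    ring
  rw [e]
  exact (c8_gen h a b).2.2.1

lemma c8_w1 (r : eis) : c8I χ (sp (1 + 2 * la * (1 + omr + 2 * r))) = s * sg r := by
  obtain ⟨a, b, rfl⟩ := ez_ex r
  have e : (1 + omr : eis) + 2 * ez a b = ez (2 * a + 1) (2 * b + 1) := by
    unfold ez
    push_cast
    ring
  rw [e]
  exact (c8_gen h a b).2.2.2

end

/-- the distribution relation of `G1` -/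
theorem G1_dist (hL : IsLat L eis Ω) {a : eis} (ha : a ≠ 0) (h1 : N1 a) [Fintype (eis ⧸ sp a)]
    {y : ℂ} (hy : Tor L y) : ∑ q : eis ⧸ sp a, G1 Ω (y + Ω * q.out / a) = a * G1 Ω (a * y) := by
  have hP : Tor L (P1 Ω) := P1_tor hL
  have hz : Tor L (y - P1 Ω) := hy.sub hL hP
  have h2 := F1_dist hL ha h1 hz
  obtain ⟨u, rfl⟩ := h1
  set a : eis := 1 + 2 * la * u with ha'
  have e1 : ∀ q : eis ⧸ sp a, F1v Ω (y - P1 Ω + Ω * q.out / a) = G1 Ω (y + Ω * q.out / a) := by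
    intro q
    unfold F1v
    congr 1
    ring
  rw [Finset.sum_congr rfl fun q _ => e1 q] at h2
  rw [h2]
  -- the right side
  have hla' : (la : ℂ) ≠ 0 := coe_ne la_ne
  have hac : (a : ℂ) = 1 + 2 * ((la * u : eis) : ℂ) := by
    rw [ha']
    push_cast
    rw [two_coe]
    ring
  have e2 : F1v Ω (a * (y - P1 Ω)) = G1 Ω (a * y + Ω * ((-u : eis) : ℂ) / 2) := by
    unfold F1v
    congr 1
    rw [hac]
    unfold P1
    push_cast
    rw [four_coe]
    field_simp
    ring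
  rw [e2, G1_sh hL]
  have e3 : ep a = sg u := by
    unfold ep sg
    rw [ha', bt_n1]
  have e4 : sg (-u) = sg u := by
    unfold sg
    rw [map_neg]
    rfl
  rw [e3, e4]
  linear_combination (a : ℂ) * G1 Ω (a * y) * sg_sq u

lemma P2_tor (hL : IsLat L eis Ω) : Tor L (P2 Ω) := by
  have h := Tor.of hL f24_ne 1
  have e : Ω * ((1 : eis) : ℂ) / ((8 * la : eis) : ℂ) = P2 Ω := by
    unfold P2
    push_cast
    ring
  rwa [e] at h

lemma q_tor (hL : IsLat L eis Ω) (t : eis) : Tor L (Ω * t / 4) := by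
  have h4 : (4 : eis) ≠ 0 := by
    have : (4 : eis) = 2 * 2 := by norm_num
    rw [this]
    exact mul_ne_zero two_ne two_ne
  have h := Tor.of hL h4 t
  rwa [four_coe] at h

/-- the four terms -/
noncomputable def gt (Ω w : ℂ) (t : eis) : ℂ := G1 Ω (w + Ω * t / 4)

lemma gt_add (hL : IsLat L eis Ω) (w : ℂ) (t r : eis) : gt Ω w (t + 2 * r) = sg r * gt Ω w t := by
  unfold gt
  have e : w + Ω * ((t + 2 * r : eis) : ℂ) / 4 = w + Ω * t / 4 + Ω * r / 2 := by
    push_cast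
    rw [two_coe]
    ring
  rw [e, G1_sh hL]

lemma F2v_eq (s Ω z : ℂ) : F2v s Ω z = gt Ω (P2 Ω + z) 0 - gt Ω (P2 Ω + z) 1 +
    s * (gt Ω (P2 Ω + z) omr + gt Ω (P2 Ω + z) (1 + omr)) := by
  have e0 : P2 Ω + z + Ω * ((0 : eis) : ℂ) / 4 = P2 Ω + z := by push_cast; ring
  have e1 : P2 Ω + z + Ω * ((1 : eis) : ℂ) / 4 = P2 Ω + z + Ω / 4 := by push_cast; ring
  have e3 : ((1 + omr : eis) : ℂ) = 1 + om := by
    push_cast
    rw [omr_coe]
  unfold F2v G2 gt
  rw [e0, e1, e3, omr_coe]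

theorem F2_per (hL : IsLat L eis Ω) {s z w : ℂ} (h : w - z ∈ L.lattice) :
    F2v s Ω w = F2v s Ω z := by
  unfold F2v G2
  rw [G1_per hL (z := P2 Ω + z) (w := P2 Ω + w) (by convert h using 1; ring),
    G1_per hL (z := P2 Ω + z + Ω / 4) (w := P2 Ω + w + Ω / 4) (by convert h using 1; ring),
    G1_per hL (z := P2 Ω + z + Ω * om / 4) (w := P2 Ω + w + Ω * om / 4) (by convert h using 1; ring),
    G1_per hL (z := P2 Ω + z + Ω * (1 + om) / 4) (w := P2 Ω + w + Ω * (1 + om) / 4)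
      (by convert h using 1; ring)]

/-- the distribution relation -/
theorem F2_dist {χ : MulChar (ZMod 8) ℤ} {s : ℂ} (h : M8 χ s) (hL : IsLat L eis Ω) {a : eis}
    (ha : a ≠ 0) (h1 : N1 a) [Fintype (eis ⧸ sp a)] {z : ℂ} (hz : Tor L z) :
    ∑ q : eis ⧸ sp a, F2v s Ω (z + Ω * q.out / a) = a * c8I χ (sp a) * F2v s Ω (a * z) := by
  have hy := (P2_tor hL).add hL hz
  set y := P2 Ω + z with hy0
  have d : ∀ t : eis, ∑ q : eis ⧸ sp a, gt Ω (y + Ω * q.out / a) t =
      a * G1 Ω (a * (y + Ω * t / 4)) := by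
    intro t
    rw [← G1_dist hL ha h1 (hy.add hL (q_tor hL t))]
    refine Finset.sum_congr rfl fun q _ => ?_
    unfold gt
    congr 1
    ring
  have e0 : ∑ q : eis ⧸ sp a, F2v s Ω (z + Ω * q.out / a) =
      a * G1 Ω (a * (y + Ω * ((0 : eis) : ℂ) / 4)) - a * G1 Ω (a * (y + Ω * ((1 : eis) : ℂ) / 4)) +
      s * (a * G1 Ω (a * (y + Ω * (omr : eis) / 4)) +
        a * G1 Ω (a * (y + Ω * ((1 + omr : eis) : ℂ) / 4))) := by
    rw [← d, ← d, ← d, ← d, ← Finset.sum_sub_distrib, ← Finset.sum_add_distrib, Finset.mul_sum,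
      ← Finset.sum_add_distrib]
    refine Finset.sum_congr rfl fun q _ => ?_
    rw [F2v_eq]
    have e : P2 Ω + (z + Ω * q.out / a) = y + Ω * q.out / a := by
      rw [hy0]
      ring
    rw [e]
  rw [e0]
  obtain ⟨u, rfl⟩ := h1
  have hla' : (la : ℂ) ≠ 0 := coe_ne la_ne
  set a : eis := 1 + 2 * la * u with ha'
  have hac : (a : ℂ) = 1 + 2 * ((la * u : eis) : ℂ) := by
    rw [ha']
    push_cast
    rw [two_coe]
    ring
  set w := P2 Ω + a * z with hw
  -- the shifted terms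
  have f : ∀ t : eis, G1 Ω (a * (y + Ω * t / 4)) = sg (la * u * t) * gt Ω w (u + t) := by
    intro t
    have e1 : (a : ℂ) * (y + Ω * t / 4) = (w + Ω * ((u + t : eis) : ℂ) / 4) +
        Ω * ((la * u * t : eis) : ℂ) / 2 := by
      rw [hy0, hw, hac]
      unfold P2
      push_cast
      rw [eight_coe]
      field_simp
      ring
    rw [e1, G1_sh hL]
    rfl
  rw [f, f, f, f]
  have hsl : ∀ x : eis, sg (la * x) = sg x := by
    intro x
    unfold sg
    rw [map_mul, rho_la, one_mul]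
  simp only [mul_assoc la, hsl]
  -- the residue class of `u`
  obtain ⟨a0, b0, hu⟩ := ez_ex u
  have o2 := omr_sq
  have s0 : sg 0 = 1 := by
    have := sg_ez_even 0 0
    rw [mul_zero] at this
    rwa [ez_zero] at this
  have s1 : sg 1 = 1 := by
    have := sg_ez_even 1 0
    rw [mul_zero] at this
    rwa [ez_one] at this
  have sw : sg omr = -1 := by
    have := sg_ez_odd 0 0
    rw [mul_zero, zero_add] at this
    rwa [ez_omr] at this
  have s2 : ∀ x : eis, sg (2 * x) = 1 := by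
    intro x
    unfold sg
    rw [map_mul]
    have : rho (2 : eis) = 0 := by
      rw [map_ofNat]
      rfl
    rw [this, zero_mul, if_pos (by decide)]
  have hs2 := h.sq
  rcases Int.even_or_odd' a0 with ⟨c, hc | hc⟩ <;> rcases Int.even_or_odd' b0 with ⟨d', hd | hd⟩
  · -- `u = 2 r`
    have hr : u = 0 + 2 * ez c d' := by
      rw [hu, hc, hd]
      unfold ez
      push_cast
      ring
    rw [ha', hr, c8_0 h]
    set r := ez c d'
    have g0 : gt Ω w (0 + 2 * r + 0) = sg r * gt Ω w 0 := by rw [← gt_add hL]; congr 1; ring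
    have g1 : gt Ω w (0 + 2 * r + 1) = sg r * gt Ω w 1 := by rw [← gt_add hL]; congr 1; ring
    have g2 : gt Ω w (0 + 2 * r + omr) = sg r * gt Ω w omr := by rw [← gt_add hL]; congr 1; ring
    have g3 : gt Ω w (0 + 2 * r + (1 + omr)) = sg r * gt Ω w (1 + omr) := by
      rw [← gt_add hL]; congr 1; ring
    rw [g0, g1, g2, g3]
    have t0 : ∀ x : eis, sg ((0 + 2 * r) * x) = 1 := by
      intro x
      rw [zero_add, mul_assoc]
      exact s2 _
    rw [t0, t0, t0, t0, F2v_eq]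
    have ew : P2 Ω + ((1 + 2 * la * (0 + 2 * r) : eis) : ℂ) * z = w := by
      rw [hw, ha', hr]
    rw [ew]
    ring
  · -- `u = ω + 2 r`
    have hr : u = omr + 2 * ez c d' := by
      rw [hu, hc, hd]
      unfold ez
      push_cast
      ring
    rw [ha', hr, c8_w h]
    set r := ez c d'
    have g0 : gt Ω w (omr + 2 * r + 0) = sg r * gt Ω w omr := by
      rw [← gt_add hL]; congr 1; ring
    have g1 : gt Ω w (omr + 2 * r + 1) = sg r * gt Ω w (1 + omr) := by
      rw [← gt_add hL]; congr 1; ring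
    have g2 : gt Ω w (omr + 2 * r + omr) = -(sg r * gt Ω w 0) := by
      have e : (omr + 2 * r + omr : eis) = 0 + 2 * (omr + r) := by ring
      rw [e, gt_add hL, sg_add, sw]
      ring
    have g3 : gt Ω w (omr + 2 * r + (1 + omr)) = -(sg r * gt Ω w 1) := by
      have e : (omr + 2 * r + (1 + omr) : eis) = 1 + 2 * (omr + r) := by ring
      rw [e, gt_add hL, sg_add, sw]
      ring
    rw [g0, g1, g2, g3]
    have t0 : sg ((omr + 2 * r) * 0) = 1 := by rw [mul_zero, s0]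
    have t1 : sg ((omr + 2 * r) * 1) = -1 := by
      rw [mul_one, sg_add, sw, s2, mul_one]
    have t2 : sg ((omr + 2 * r) * omr) = -1 := by
      have e : ((omr + 2 * r) * omr : eis) = omr + (1 + 2 * (-omr - 1 + r * omr)) := by
        linear_combination o2
      rw [e, sg_add, sw, sg_add, s1, s2]
      norm_num
    have t3 : sg ((omr + 2 * r) * (1 + omr)) = 1 := by
      have e : ((omr + 2 * r) * (1 + omr) : eis) = 1 + 2 * (-1 + r * (1 + omr)) := by
        linear_combination o2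
      rw [e, sg_add, s1, s2, mul_one]
    rw [t0, t1, t2, t3, F2v_eq]
    have ew : P2 Ω + ((1 + 2 * la * (omr + 2 * r) : eis) : ℂ) * z = w := by
      rw [hw, ha', hr]
    rw [ew]
    linear_combination (-((1 + 2 * la * (omr + 2 * r) : eis) : ℂ) * sg r *
      (gt Ω w omr + gt Ω w (1 + omr))) * hs2
  · -- `u = 1 + 2 r`
    have hr : u = 1 + 2 * ez c d' := by
      rw [hu, hc, hd]
      unfold ez
      push_cast
      ring
    rw [ha', hr, c8_1 h]
    set r := ez c d'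
    have g0 : gt Ω w (1 + 2 * r + 0) = sg r * gt Ω w 1 := by
      rw [← gt_add hL]; congr 1; ring
    have g1 : gt Ω w (1 + 2 * r + 1) = sg r * gt Ω w 0 := by
      have e : (1 + 2 * r + 1 : eis) = 0 + 2 * (1 + r) := by ring
      rw [e, gt_add hL, sg_add, s1]
      ring
    have g2 : gt Ω w (1 + 2 * r + omr) = sg r * gt Ω w (1 + omr) := by
      rw [← gt_add hL]; congr 1; ring
    have g3 : gt Ω w (1 + 2 * r + (1 + omr)) = sg r * gt Ω w omr := by
      have e : (1 + 2 * r + (1 + omr) : eis) = omr + 2 * (1 + r) := by ring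
      rw [e, gt_add hL, sg_add, s1]
      ring
    rw [g0, g1, g2, g3]
    have t0 : sg ((1 + 2 * r) * 0) = 1 := by rw [mul_zero, s0]
    have t1 : sg ((1 + 2 * r) * 1) = 1 := by rw [mul_one, sg_add, s1, s2, mul_one]
    have t2 : sg ((1 + 2 * r) * omr) = -1 := by
      have e : ((1 + 2 * r) * omr : eis) = omr + 2 * (r * omr) := by ring
      rw [e, sg_add, sw, s2, mul_one]
    have t3 : sg ((1 + 2 * r) * (1 + omr)) = -1 := by
      have e : ((1 + 2 * r) * (1 + omr) : eis) = 1 + (omr + 2 * (r * (1 + omr))) := by ring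
      rw [e, sg_add, s1, sg_add, sw, s2]
      norm_num
    rw [t0, t1, t2, t3, F2v_eq]
    have ew : P2 Ω + ((1 + 2 * la * (1 + 2 * r) : eis) : ℂ) * z = w := by
      rw [hw, ha', hr]
    rw [ew]
    ring
  · -- `u = 1 + ω + 2 r`
    have hr : u = 1 + omr + 2 * ez c d' := by
      rw [hu, hc, hd]
      unfold ez
      push_cast
      ring
    rw [ha', hr, c8_w1 h]
    set r := ez c d'
    have g0 : gt Ω w (1 + omr + 2 * r + 0) = sg r * gt Ω w (1 + omr) := by
      rw [← gt_add hL]; congr 1; ring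
    have g1 : gt Ω w (1 + omr + 2 * r + 1) = sg r * gt Ω w omr := by
      have e : (1 + omr + 2 * r + 1 : eis) = omr + 2 * (1 + r) := by ring
      rw [e, gt_add hL, sg_add, s1]
      ring
    have g2 : gt Ω w (1 + omr + 2 * r + omr) = -(sg r * gt Ω w 1) := by
      have e : (1 + omr + 2 * r + omr : eis) = 1 + 2 * (omr + r) := by ring
      rw [e, gt_add hL, sg_add, sw]
      ring
    have g3 : gt Ω w (1 + omr + 2 * r + (1 + omr)) = -(sg r * gt Ω w 0) := by
      have e : (1 + omr + 2 * r + (1 + omr) : eis) = 0 + 2 * (1 + (omr + r)) := by ring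
      rw [e, gt_add hL, sg_add, s1, sg_add, sw]
      ring
    rw [g0, g1, g2, g3]
    have t0 : sg ((1 + omr + 2 * r) * 0) = 1 := by rw [mul_zero, s0]
    have t1 : sg ((1 + omr + 2 * r) * 1) = -1 := by
      rw [mul_one, sg_add, sg_add, s1, sw, s2]
      norm_num
    have t2 : sg ((1 + omr + 2 * r) * omr) = 1 := by
      have e : ((1 + omr + 2 * r) * omr : eis) = 1 + 2 * (-1 + r * omr) := by
        linear_combination o2
      rw [e, sg_add, s1, s2, mul_one]
    have t3 : sg ((1 + omr + 2 * r) * (1 + omr)) = -1 := by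
      have e : ((1 + omr + 2 * r) * (1 + omr) : eis) = omr + 2 * (r * (1 + omr)) := by
        linear_combination o2
      rw [e, sg_add, sw, s2, mul_one]
    rw [t0, t1, t2, t3, F2v_eq]
    have ew : P2 Ω + ((1 + 2 * la * (1 + omr + 2 * r) : eis) : ℂ) * z = w := by
      rw [hw, ha', hr]
    rw [ew]
    linear_combination (-((1 + 2 * la * (1 + omr + 2 * r) : eis) : ℂ) * sg r *
      (gt Ω w omr + gt Ω w (1 + omr))) * hs2

/-- the function satisfies the assumptions of the induction -/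
theorem F2_FN {χ : MulChar (ZMod 8) ℤ} {s : ℂ} (h : M8 χ s) (hL : IsLat L eis Ω) :
    FN L Ω (F2v s Ω) (fun a => c8I χ (sp a)) :=
  ⟨fun h' => F2_per hL h', fun ha h1 _ _ hz => F2_dist h hL ha h1 hz⟩

end Pool.Agent.L0h4.T5
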