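import Pool.Agent.L0h4.T5.Vl8

/-!
# The induction for class (c)
-/

set_option autoImplicit false
set_option linter.unusedSectionVars false

open Filter
open scoped Topology PeriodPair

namespace Pool.Agent.L0h4.T5

open H667R3 Pool.Agent.W192.HK Pool.Agent.TH936.CM
open Pool.Agent.TH936.PU hiding pf
open Pool.Agent.Y696 Pool.Agent.Y715.T.Lat Pool.Agent.Y715.Dist
open Pool.Agent.L0h86.F3 hiding Bv_eq unit_mod6
open Pool.Agent.L0h4.T4
open Pool.Agent.L0h86.F5
open Pool.Agent.Y698.SG (lg lg_one lg_neg_one lg_mul sgn_mul sgn_prod ix)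

variable {L : PeriodPair} {Ω : ℂ} {Γ : Type*} [LinearOrderedCommGroupWithZero Γ]
  {v : Valuation ℂ Γ} {F : ℂ → ℂ} {ε : eis → ℂ}

/-- **the induction, with any right side** -/
theorem indG {ι : Type} [DecidableEq ι] (hL : IsLat L eis Ω) (hF : FN L Ω F ε)
    {c0 : ℂ} (hc0 : c0 ≠ 0) {S0 : Finset ι} {π : ι → eis} (hS0 : FX S0 π) (a : ι → F4)
    (V G : Finset ι → F4)
    (he : ∀ i ∈ S0, ∀ κ : ℂ, (κ = 1 ∨ κ = -1) →
      R4 v (((π i : ℂ) * ε (π i) - κ) / 2) (a i + F4.of (lg κ)))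
    (hv : ∀ S ⊆ S0, R4 v (Bw F Ω (∏ i ∈ S, π i) (fun m => ∏ i ∈ S, hc (π i) m) / c0) (V S))
    (hG : ∀ S ⊆ S0, ∑ A ∈ S.powerset, (∏ i ∈ S \ A, (a i + ∑ j ∈ A, F4.of (mm π i j))) * G A = V S)
    (S : Finset ι) (hSS : S ⊆ S0) :
    R4 v (Bw F Ω (∏ i ∈ S, π i) (fun m => ∏ i ∈ S, sy (π i) m) / (2 ^ S.card * c0)) (G S) := by
  set aa : Finset ι → ℂ := fun A => Bw F Ω (∏ i ∈ A, π i) (fun m => ∏ i ∈ A, sy (π i) m) with had
  have key : ∀ S : Finset ι, S ⊆ S0 → R4 v (aa S / (2 ^ S.card * c0)) (G S) := by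
    intro S
    induction S using Finset.strongInduction with
    | H S ih =>
      intro hSS
      have hS := hS0.mono hSS
      have h2 := Bw_subsets hL hF S hS
      rw [← Finset.add_sum_erase _ _ (Finset.mem_powerset_self S), Finset.sdiff_self,
        Finset.prod_empty, one_mul] at h2
      have h3 := hv S hSS
      set Y := Bw F Ω (∏ i ∈ S, π i) (fun m => ∏ i ∈ S, hc (π i) m) with hY
      have h20 : (2 : ℂ) ^ S.card ≠ 0 := pow_ne_zero _ two_ne_zero
      set t : Finset ι → ℂ := fun A =>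
        (∏ i ∈ S \ A, (((π i : ℂ) * ε (π i) - ∏ j ∈ A, sy (π j) (π i)) / 2)) *
          (aa A / (2 ^ A.card * c0)) with ht
      have ht1 : ∀ A ∈ S.powerset.erase S, (∏ i ∈ S \ A, ((π i : ℂ) * ε (π i) -
          ∏ j ∈ A, sy (π j) (π i))) *
          Bw F Ω (∏ i ∈ A, π i) (fun m => ∏ i ∈ A, sy (π i) m) =
          (2 ^ S.card * c0) * t A := by
        intro A hA
        rw [Finset.mem_erase, Finset.mem_powerset] at hA
        have hcs : S.card = (S \ A).card + A.card := (Finset.card_sdiff_add_card_eq_card hA.2).symm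
        rw [ht]
        beta_reduce
        rw [Finset.prod_div_distrib, Finset.prod_const, hcs, pow_add]
        simp only [had]
        field_simp
      rw [Finset.sum_congr rfl ht1, ← Finset.mul_sum] at h2
      have h4 : aa S / (2 ^ S.card * c0) =
          Y / c0 + -∑ A ∈ S.powerset.erase S, t A := by
        have : aa S = 2 ^ S.card * Y - (2 ^ S.card * c0) * ∑ A ∈ S.powerset.erase S, t A := by
          linear_combination h2
        rw [this]
        field_simp
        ring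
      have h5 : G S = V S + ∑ A ∈ S.powerset.erase S,
          (∏ i ∈ S \ A, (a i + ∑ j ∈ A, F4.of (mm π i j))) * G A := by
        have h6 := hG S hSS
        rw [← Finset.add_sum_erase _ _ (Finset.mem_powerset_self S), Finset.sdiff_self,
          Finset.prod_empty, one_mul] at h6
        rw [← h6, add_assoc, add_self_two, add_zero]
      rw [h4, h5]
      refine h3.add (R4.neg (R4.sum ?_))
      intro A hA
      rw [Finset.mem_erase, Finset.mem_powerset] at hA
      have hss : A ⊂ S := hA.2.ssubset_of_ne hA.1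
      refine R4.mul (R4.prod fun i hi => ?_) (ih A hss (hA.2.trans hSS))
      rw [Finset.mem_sdiff] at hi
      have h7 := sgn_prod (s := A) (f := fun j => sy (π j) (π i)) fun j hj => sy_sgn
        (hS.ne i hi.1 j (hA.2 hj) fun h => hi.2 (h ▸ hj))
      have h8 : ∑ j ∈ A, F4.of (mm π i j) = F4.of (lg (∏ j ∈ A, sy (π j) (π i))) := by
        rw [h7.2, map_sum]
        rfl
      rw [h8]
      exact he i (hSS hi.1) _ h7.1
  exact key S hSS

/-! ### the Euler factors -/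

lemma sy_m2 {ϖ : eis} (h : PX ϖ) : sy ϖ (-2) = c8I ZMod.χ₈' (sp ϖ) := by
  classical
  have hm := maximal_sp h.pr.irreducible
  have f1 := fin_quot h.pr.ne_zero
  let i1 : Field (eis ⧸ sp ϖ) := Ideal.Quotient.field (sp ϖ)
  let i2 : Fintype (eis ⧸ sp ϖ) := Fintype.ofFinite _
  have hs : Function.Surjective (Ideal.Quotient.mk (sp ϖ)) := Ideal.Quotient.mk_surjective
  have hk : ∀ x, Ideal.Quotient.mk (sp ϖ) x = 0 ↔ x ∈ sp ϖ := fun x =>
    Ideal.Quotient.eq_zero_iff_mem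
  rw [sy_eq _ hs hk, map_neg, map_ofNat]
  have h2 : (2 : eis ⧸ sp ϖ) ≠ 0 := by
    intro h0
    apply two_notin h.odd h.pr
    rw [← hk, map_ofNat]
    exact h0
  have hF : ringChar (eis ⧸ sp ϖ) ≠ 2 := by
    intro hc
    apply h2
    have h3 := ringChar.Nat.cast_ringChar (R := eis ⧸ sp ϖ)
    rw [hc] at h3
    exact_mod_cast h3
  rw [quadraticChar_neg_two hF]
  unfold c8I
  rw [Nat.card_eq_fintype_card]

lemma sy_m2_sgn {ϖ : eis} (h : PX ϖ) : sy ϖ (-2) = 1 ∨ sy ϖ (-2) = -1 := by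
  obtain ⟨u, hu⟩ := h.n1
  have h1 := c8_val x8_two u
  rw [← hu] at h1
  rw [sy_m2 h]
  exact h1

lemma c8_one' {ϖ : eis} (h : PX ϖ) : c8I ZMod.χ₈ (sp ϖ) = ep ϖ * sy ϖ (-2) := by
  obtain ⟨u, hu⟩ := h.n1
  rw [sy_m2 h]
  have h4 := c4I_n1 u
  rw [← hu] at h4
  rw [← h4]
  obtain ⟨a, b, hab⟩ := ez_ex (la * u)
  have e : ϖ = 1 + 2 * ez a b := by rw [hu, ← hab]; ring
  unfold c8I c4I
  set N := Nat.card (eis ⧸ sp ϖ) with hN
  have hodd : N % 2 = 1 := by
    have h1 := card_half a b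
    rw [← e] at h1
    have h2 : (N : ℤ) = 1 + 2 * (2 * a + 2 * a ^ 2 - b - 2 * a * b + 2 * b ^ 2) := by
      rw [hN, h1]
      ring
    omega
  have h8 : (N : ZMod 8) = ((N % 8 : ℕ) : ZMod 8) := (ZMod.natCast_mod N 8).symm
  have h44 : (N : ZMod 4) = ((N % 4 : ℕ) : ZMod 4) := (ZMod.natCast_mod N 4).symm
  have h6 : N % 8 = 1 ∨ N % 8 = 3 ∨ N % 8 = 5 ∨ N % 8 = 7 := by omega
  rw [h8, h44]
  rcases h6 with h6 | h6 | h6 | h6
  · have h7 : N % 4 = 1 := by omega
    rw [h6, h7]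
    have e1 : ZMod.χ₈ ((1 : ℕ) : ZMod 8) = 1 := by decide
    have e2 : ZMod.χ₈' ((1 : ℕ) : ZMod 8) = 1 := by decide
    have e3 : ZMod.χ₄ ((1 : ℕ) : ZMod 4) = 1 := by decide
    rw [e1, e2, e3]
    norm_num
  · have h7 : N % 4 = 3 := by omega
    rw [h6, h7]
    have e1 : ZMod.χ₈ ((3 : ℕ) : ZMod 8) = -1 := by decide
    have e2 : ZMod.χ₈' ((3 : ℕ) : ZMod 8) = 1 := by decide
    have e3 : ZMod.χ₄ ((3 : ℕ) : ZMod 4) = -1 := by decide
    rw [e1, e2, e3]
    norm_num
  · have h7 : N % 4 = 1 := by omega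
    rw [h6, h7]
    have e1 : ZMod.χ₈ ((5 : ℕ) : ZMod 8) = -1 := by decide
    have e2 : ZMod.χ₈' ((5 : ℕ) : ZMod 8) = -1 := by decide
    have e3 : ZMod.χ₄ ((1 : ℕ) : ZMod 4) = 1 := by decide
    rw [e1, e2, e3]
    norm_num
  · have h7 : N % 4 = 3 := by omega
    rw [h6, h7]
    have e1 : ZMod.χ₈ ((7 : ℕ) : ZMod 8) = 1 := by decide
    have e2 : ZMod.χ₈' ((7 : ℕ) : ZMod 8) = -1 := by decide
    have e3 : ZMod.χ₄ ((3 : ℕ) : ZMod 4) = -1 := by decide
    rw [e1, e2, e3]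
    norm_num

lemma lg_ep (a : eis) : lg (ep a) = F4.tr (bt a) := by
  rcases ep_val a with ⟨h1, h2⟩ | ⟨h1, h2⟩
  · rw [h1, h2, lg_one]
  · rw [h1, h2, lg_neg_one]

lemma ep_sgn (a : eis) : ep a = 1 ∨ ep a = -1 := by
  rcases ep_val a with ⟨-, h⟩ | ⟨-, h⟩
  · exact Or.inl h
  · exact Or.inr h

/-- the constants of the recursion -/
noncomputable def aB {ι : Type} (π : ι → eis) (t : ZMod 2) (i : ι) : F4 :=
  F4.cj (bt (π i)) + F4.of (e2 π i + t * F4.tr (bt (π i)))

/-- `t` and the sign -/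
def T8 (s : ℂ) (t : ZMod 2) : Prop := (s = -1 ∧ t = 1) ∨ (s = 1 ∧ t = 0)

/-- the Euler factors -/
theorem R4_c8 {χ : MulChar (ZMod 8) ℤ} {s : ℂ} {t : ZMod 2} (hM : M8 χ s) (hT : T8 s t)
    {ι : Type} {π : ι → eis} {i : ι} (h : PX (π i)) {κ : ℂ} (hκ : κ = 1 ∨ κ = -1) :
    R4 v (((π i : ℂ) * c8I χ (sp (π i)) - κ) / 2) (aB π t i + F4.of (lg κ)) := by
  have hcj : F4.cj (bt (π i)) = bt (π i) + F4.of (F4.tr (bt (π i))) := by
    generalize bt (π i) = t
    revert t
    decide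
  -- the sign
  obtain ⟨h1, h2⟩ : (c8I χ (sp (π i)) = 1 ∨ c8I χ (sp (π i)) = -1) ∧
      aB π t i = bt (π i) + F4.of (lg (c8I χ (sp (π i)))) := by
    unfold aB e2
    rcases hM with ⟨rfl, hs⟩ | ⟨rfl, hs⟩
    · have ht : t = 1 := by
        rcases hT with ⟨-, h3⟩ | ⟨h3, -⟩
        · exact h3
        · rw [hs] at h3
          norm_num at h3
      rw [← sy_m2 h]
      refine ⟨sy_m2_sgn h, ?_⟩
      rw [ht, hcj, one_mul, map_add]
      generalize F4.of (F4.tr (bt (π i))) = x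
      generalize F4.of (lg (sy (π i) (-2))) = y
      generalize bt (π i) = z
      revert x y z
      decide
    · have ht : t = 0 := by
        rcases hT with ⟨h3, -⟩ | ⟨-, h3⟩
        · rw [hs] at h3
          norm_num at h3
        · exact h3
      rw [c8_one' h]
      refine ⟨sgn_mul (ep_sgn _) (sy_m2_sgn h), ?_⟩
      rw [lg_mul (ep_sgn _) (sy_m2_sgn h), lg_ep, ht, hcj, zero_mul, add_zero, map_add, add_assoc]
  rw [h2]
  rcases h1 with h1 | h1
  · rw [h1, lg_one, map_zero, add_zero, mul_one]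
    exact R4_euler h hκ
  · have h3 : ((-κ = 1) ∨ (-κ = -1)) := by
      rcases hκ with rfl | rfl
      · right; rfl
      · left; norm_num
    have h4 := (R4_euler (v := v) h h3).neg
    have e : ((π i : ℂ) * c8I χ (sp (π i)) - κ) / 2 = -(((π i : ℂ) - -κ) / 2) := by
      rw [h1]
      ring
    have e2 : bt (π i) + F4.of (lg (c8I χ (sp (π i)))) + F4.of (lg κ) =
        bt (π i) + F4.of (lg (-κ)) := by
      rw [h1, lg_neg_one, map_one]
      rcases hκ with rfl | rfl
      · rw [lg_neg_one, lg_one, map_one, map_zero, add_zero]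
      · rw [neg_neg, lg_neg_one, lg_one, map_one, map_zero, add_zero, add_assoc]
        have : (1 + 1 : F4) = 0 := by decide
        rw [this, add_zero]
    rw [e, e2]
    exact h4

/-! ### the threefold sum -/

/-- the sum over the cube roots of unity -/
noncomputable def F3t (s Ω z : ℂ) : ℂ :=
  F2v s Ω z + F2v s Ω (om * z) + F2v s Ω (om ^ 2 * z)

theorem F3_FN {χ : MulChar (ZMod 8) ℤ} {s : ℂ} (h : M8 χ s) (hL : IsLat L eis Ω) :
    FN L Ω (F3t s Ω) (fun a => c8I χ (sp a)) := by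
  constructor
  · intro z w hzw
    unfold F3t
    rw [F2_per hL hzw, F2_per hL (z := om * z) (w := om * w) (by
        have := hL.mul omr _ hzw
        rw [omr_coe] at this
        convert this using 1
        ring), F2_per hL (z := om ^ 2 * z) (w := om ^ 2 * w) (by
        have := hL.mul (omr ^ 2) _ hzw
        push_cast at this
        rw [omr_coe] at this
        convert this using 1
        ring)]
  · intro a ha h1 _ z hz
    have key : ∀ u : eis, IsUnit u → ∑ q : eis ⧸ sp a, F2v s Ω (u * (z + Ω * q.out / a)) =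
        a * c8I χ (sp a) * F2v s Ω (u * (a * z)) := by
      intro u hu
      have h2 := F2_dist h hL ha h1 (hz.mul hL u)
      rw [show (u : ℂ) * (a * z) = a * (u * z) by ring, ← h2]
      rw [sum_rep (fun q : eis ⧸ sp a => u * q.out) (unit_bij hu)
        (fun r : eis => F2v s Ω (u * z + Ω * r / a)) (fun x y hxy => by
          apply F2_per hL
          have h3 := (div_mem_iff hL ha (x - y)).2 hxy
          convert h3 using 1
          push_cast
          ring)]
      refine Finset.sum_congr rfl fun q _ => ?_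
      congr 1
      push_cast
      ring
    unfold F3t
    rw [Finset.sum_add_distrib, Finset.sum_add_distrib]
    have k0 := key 1 isUnit_one
    have k1 := key omr omr_unit
    have k2 := key (omr ^ 2) (omr_unit.pow 2)
    push_cast at k0 k1 k2
    simp only [one_mul] at k0
    rw [omr_coe] at k1 k2
    rw [k0, k1, k2]
    ring

/-- the weighted sums of the threefold sum -/
lemma B3_eq {χ : MulChar (ZMod 8) ℤ} {s : ℂ} (h : M8 χ s) (hL : IsLat L eis Ω) {n : eis}
    (hn : n ≠ 0) {φ : eis → ℂ} (hφ : Pe n φ) (hu : ∀ u : eis, IsUnit u → ∀ x, φ (u * x) = φ x) :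
    Bw (F3t s Ω) Ω n φ = 3 * Bw (F2v s Ω) Ω n φ := by
  have f1 := fin_quot hn
  let _ : Fintype (eis ⧸ sp n) := Fintype.ofFinite _
  have r : ∀ u : eis, IsUnit u → ∑ x : eis ⧸ sp n, φ x.out * F2v s Ω (u * (Ω * x.out / n)) =
      Bw (F2v s Ω) Ω n φ := fun u h' => Bw_rot hL (F2_FN h hL) hn h' hφ (hu u h')
  have k0 := r 1 isUnit_one
  have k1 := r omr omr_unit
  have k2 := r (omr ^ 2) (omr_unit.pow 2)
  push_cast at k0 k1 k2
  simp only [one_mul] at k0
  rw [omr_coe] at k1 k2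
  have e : Bw (F3t s Ω) Ω n φ = ∑ x : eis ⧸ sp n, φ x.out * F2v s Ω (Ω * x.out / n) +
      ∑ x : eis ⧸ sp n, φ x.out * F2v s Ω (om * (Ω * x.out / n)) +
      ∑ x : eis ⧸ sp n, φ x.out * F2v s Ω (om ^ 2 * (Ω * x.out / n)) := by
    rw [Bw_eq, ← Finset.sum_add_distrib, ← Finset.sum_add_distrib]
    refine Finset.sum_congr rfl fun x _ => ?_
    unfold F3t
    ring
  rw [e, k0, k1, k2]
  ring

end Pool.Agent.L0h4.T5
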