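import Pool.Agent.L0h4.T5.Dst

/-!
# The sums over the residue classes modulo `8√-3`
-/

set_option autoImplicit false
set_option linter.unusedSectionVars false

open Filter
open scoped Topology PeriodPair

namespace Pool.Agent.L0h4.T5

open H667R3 Pool.Agent.W192.HK Pool.Agent.TH936.CM
open Pool.Agent.TH936.PU hiding pf
open Pool.Agent.W192.CM (nu)
open Pool.Agent.Y696 Pool.Agent.Y715.T.Lat Pool.Agent.Y715.Dist
open Pool.Agent.Y715.T.LF (nu_eq)
open Pool.Agent.L0h86.F3 hiding Bv_eq unit_mod6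
open Pool.Agent.L0h4.T4
open Pool.Agent.L0h86.F5
open Pool.Agent.Y698.SG (lg lg_one lg_neg_one lg_mul sgn_mul sgn_prod ix)

variable {L : PeriodPair} {Ω : ℂ} {Γ : Type*} [LinearOrderedCommGroupWithZero Γ]
  {v : Valuation ℂ Γ}

/-- one class modulo `4√-3` -/
noncomputable def bh (F : eis → ℂ) (u t : eis) : ℂ :=
  F (u * (1 + 2 * la * (t + 2 * 0))) + F (u * (1 + 2 * la * (t + 2 * 1))) +
    F (u * (1 + 2 * la * (t + 2 * omr))) + F (u * (1 + 2 * la * (t + 2 * (1 + omr))))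

/-- one class modulo `2√-3` -/
noncomputable def bk8 (F : eis → ℂ) (u : eis) : ℂ :=
  bh F u 0 + bh F u 1 + bh F u omr + bh F u (1 + omr)

/-- the sum modulo `8√-3` -/
theorem sum_f24 (F : eis → ℂ) (hF0 : ∀ x, ¬ IsCoprime x (2 * la) → F x = 0)
    (hper : ∀ x y : eis, x - y ∈ (sp (8 * la) : Ideal eis) → F x = F y)
    [Fintype (eis ⧸ (sp (8 * la) : Ideal eis))] :
    ∑ y : eis ⧸ (sp (8 * la) : Ideal eis), F y.out =
      bk8 F 1 + bk8 F (-1) + bk8 F omr + bk8 F (-omr) + bk8 F (omr ^ 2) + bk8 F (-omr ^ 2) := by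
  have f1 := fin_quot f12_ne
  have f2 := fin_quot two_ne
  let _ : Fintype (eis ⧸ (sp (4 * la) : Ideal eis)) := Fintype.ofFinite _
  let _ : Fintype (eis ⧸ (sp 2 : Ideal eis)) := Fintype.ofFinite _
  have hb := bij_mul (R := eis) (a := 2) (f := 4 * la) f12_ne
  have e4 : (8 * la : eis) = 2 * (4 * la) := by ring
  have e4' : (sp (8 * la) : Ideal eis) = sp (2 * (4 * la)) := by rw [e4]
  have hb' : Function.Bijective (fun p : (eis ⧸ (sp (4 * la) : Ideal eis)) ×
      (eis ⧸ (sp 2 : Ideal eis)) =>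
      Ideal.Quotient.mk (sp (8 * la) : Ideal eis) (p.1.out + 4 * la * p.2.out)) := by
    rw [e4']
    exact hb
  rw [sum_rep _ hb' F hper, Fintype.sum_prod_type]
  set G : eis → ℂ := fun x => ∑ t : eis ⧸ (sp 2 : Ideal eis), F (x + 4 * la * t.out) with hG
  have hGper : ∀ x y : eis, x - y ∈ (sp (4 * la) : Ideal eis) → G x = G y := by
    intro x y hxy
    rw [Ideal.mem_span_singleton'] at hxy
    obtain ⟨s, hs⟩ := hxy
    have hx : x = y + s * (4 * la) := by linear_combination -hs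
    rw [hG]
    beta_reduce
    have hg : Function.Bijective (fun t : eis ⧸ (sp 2 : Ideal eis) =>
        Ideal.Quotient.mk (sp 2 : Ideal eis) (s + t.out)) := by
      have e1 : (fun t : eis ⧸ (sp 2 : Ideal eis) => Ideal.Quotient.mk (sp 2) (s + t.out)) =
          fun t => (Equiv.addLeft (Ideal.Quotient.mk (sp 2) s)) t := by
        funext t
        rw [map_add, Ideal.Quotient.mk_out]
        rfl
      rw [e1]
      exact (Equiv.addLeft _).bijective
    rw [sum_rep (I := (sp 2 : Ideal eis)) (fun t : eis ⧸ (sp 2 : Ideal eis) => s + t.out) hg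
      (fun r => F (y + 4 * la * r))]
    · refine Finset.sum_congr rfl fun t _ => ?_
      congr 1
      rw [hx]
      ring
    · intro a b hab
      apply hper
      rw [Ideal.mem_span_singleton'] at hab ⊢
      obtain ⟨r, hr⟩ := hab
      exact ⟨r, by linear_combination 4 * la * hr⟩
  have hG0 : ∀ x, ¬ IsCoprime x (2 * la) → G x = 0 := by
    intro x hx
    rw [hG]
    refine Finset.sum_eq_zero fun t _ => hF0 _ fun h => hx ?_
    obtain ⟨a, b, hab⟩ := h
    exact ⟨a, b + 2 * a * t.out, by linear_combination hab⟩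
  have h6 := sum_f12 G hG0 hGper
  rw [show ∑ x : eis ⧸ (sp (4 * la) : Ideal eis), ∑ y : eis ⧸ (sp 2 : Ideal eis),
    F (x.out + 4 * la * y.out) = ∑ y : eis ⧸ (sp (4 * la) : Ideal eis), G y.out from rfl, h6]
  have hu : ∀ u t : eis, IsUnit u → G (u * (1 + 2 * la * t)) = bh F u t := by
    intro u t hu
    rw [hG]
    beta_reduce
    rw [sum_rep (I := (sp 2 : Ideal eis)) (fun t : eis ⧸ (sp 2 : Ideal eis) => u * t.out)
      (unit_bij hu) (fun r => F (u * (1 + 2 * la * t) + 4 * la * r))]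
    · have h7 := sum_two (fun x => F (u * (1 + 2 * la * t) + 4 * la * (u * x))) (by
        intro a b hab
        apply hper
        rw [Ideal.mem_span_singleton'] at hab ⊢
        obtain ⟨r, hr⟩ := hab
        exact ⟨u * r, by linear_combination 4 * la * u * hr⟩)
      rw [h7]
      unfold bh
      have e : ∀ r : eis, u * (1 + 2 * la * t) + 4 * la * (u * r) =
          u * (1 + 2 * la * (t + 2 * r)) := fun r => by ring
      rw [e, e, e, e]
    · intro a b hab
      apply hper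
      rw [Ideal.mem_span_singleton'] at hab ⊢
      obtain ⟨r, hr⟩ := hab
      exact ⟨r, by linear_combination 4 * la * hr⟩
  have hk : ∀ u : eis, IsUnit u → bk G u = bk8 F u := by
    intro u h
    unfold bk bk8
    rw [hu u 0 h, hu u 1 h, hu u omr h, hu u (1 + omr) h]
  rw [hk 1 isUnit_one, hk (-1) isUnit_one.neg, hk (omr ^ 2) (omr_unit.pow 2),
    hk (-omr ^ 2) (omr_unit.pow 2).neg, hk omr omr_unit, hk (-omr) omr_unit.neg]

/-! ### the finite part -/

section

variable {χ : MulChar (ZMod 8) ℤ} {s : ℂ} (hM : M8 χ s) {ψ : Ideal eis → ℂ}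
  (hψe : ψ = fun J => psi6 J * c8I χ J) (hpsi : S_PSI)

lemma c8I_conj (χ : MulChar (ZMod 8) ℤ) (I : Ideal eis) : (starRingEnd ℂ) (c8I χ I) = c8I χ I := by
  unfold c8I
  exact map_intCast _ _

include hψe hpsi

lemma ee8_n1 {m : eis} (hm : N1 m) {w : eis} (hw : IsUnit w) :
    ee ψ (w * m) = w * c8I χ (sp m) := by
  have hm0 : m ≠ 0 := by
    obtain ⟨u, rfl⟩ := hm
    exact n1_ne u
  have h0 : (m : ℂ) ≠ 0 := coe_ne hm0
  have hw0 : (w : ℂ) ≠ 0 := coe_ne hw.ne_zero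
  have e : sp (w * m) = sp m := Ideal.span_singleton_mul_left_unit hw _
  unfold ee fp
  rw [e, hψe]
  beta_reduce
  rw [psi6_n1 hpsi hm hm0, pow_one]
  push_cast
  have e : (m : ℂ) * c8I χ (sp m) / (w * m) = (w : ℂ)⁻¹ * c8I χ (sp m) := by field_simp
  rw [e, map_mul, c8I_conj]
  congr 1
  have h1 : Complex.normSq (w : ℂ) = 1 := (isUnit_iff' w).1 hw
  have h2 : (w : ℂ) * (starRingEnd ℂ) (w : ℂ) = 1 := by
    rw [Complex.mul_conj, h1, Complex.ofReal_one]
  rw [map_inv₀]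
  exact inv_eq_of_mul_eq_one_left h2

lemma ee8_ncop (hψ : HC 1 (sp (8 * la : eis)) ψ) {x : eis} (hx : ¬ IsCoprime x (2 * la)) :
    ee ψ x = 0 := by
  have h : ψ (sp x) = 0 := by
    rw [hψ.zero]
    right
    rw [Ideal.isCoprime_span_singleton_iff]
    intro h
    apply hx
    obtain ⟨a, b, hab⟩ := h
    exact ⟨a, 4 * b, by linear_combination hab⟩
  unfold ee fp
  rw [h, zero_div, map_zero]

include hM

/-- one unit -/
lemma bk8_ee (hL : IsLat L eis Ω) {z : ℂ} (hz : Tor L z) {u w : eis} (hwu : w * u = 1) :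
    bk8 (fun y => ee ψ y * Ev Ω (Ω * y / ((8 * la : eis) : ℂ) + z)) u = F2v s Ω (w * z) := by
  have hu : IsUnit u := IsUnit.of_mul_eq_one w (by rw [mul_comm]; exact hwu)
  have hwu' : (w : ℂ) * u = 1 := by
    have := congrArg (fun t : eis => (t : ℂ)) hwu
    push_cast at this
    exact this
  have hu0 : (u : ℂ) ≠ 0 := coe_ne hu.ne_zero
  have hla' : (la : ℂ) ≠ 0 := coe_ne la_ne
  have key : ∀ t r : eis, ee ψ (u * (1 + 2 * la * (t + 2 * r))) *
      Ev Ω (Ω * ((u * (1 + 2 * la * (t + 2 * r)) : eis) : ℂ) / ((8 * la : eis) : ℂ) + z) =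
      c8I χ (sp (1 + 2 * la * (t + 2 * r))) *
        Ev Ω (P2 Ω + w * z + Ω * t / 4 + Ω * r / 2) := by
    intro t r
    rw [ee8_n1 hψe hpsi ⟨t + 2 * r, rfl⟩ hu]
    have e : Ω * ((u * (1 + 2 * la * (t + 2 * r)) : eis) : ℂ) / ((8 * la : eis) : ℂ) + z =
        u * (P2 Ω + w * z + Ω * t / 4 + Ω * r / 2) := by
      unfold P2
      push_cast
      rw [eight_coe, two_coe]
      field_simp
      linear_combination (-(64 * la * z)) * hwu'
    have ht : Tor L (P2 Ω + w * z + Ω * t / 4 + Ω * r / 2) := by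
      refine (((P2_tor hL).add hL (hz.mul hL w)).add hL (q_tor hL t)).add hL ?_
      have := Tor.of hL two_ne r
      rwa [two_coe] at this
    rw [e, Ev_unit hL hu ht]
    field_simp
  -- the inner sums
  have s0 : sg 0 = 1 := by
    have := sg_ez_even 0 0
    rw [mul_zero] at this
    rwa [ez_zero] at this
  have s1 : sg 1 = 1 := by
    have := sg_ez_even 1 0
    rw [mul_zero] at this
    rwa [ez_one] at this
  have sw : sg omr = -1 := by
    have := sg_ez_odd 0 0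
    rw [mul_zero, zero_add] at this
    rwa [ez_omr] at this
  have s3 : sg (1 + omr) = -1 := by rw [sg_add, s1, sw, one_mul]
  have inner : ∀ (t : eis) (c : ℂ), (∀ r : eis, c8I χ (sp (1 + 2 * la * (t + 2 * r))) =
      c * sg r) → bh (fun y => ee ψ y * Ev Ω (Ω * y / ((8 * la : eis) : ℂ) + z)) u t =
      c * gt Ω (P2 Ω + w * z) t := by
    intro t c hc
    unfold bh
    beta_reduce
    rw [key, key, key, key, hc, hc, hc, hc, s0, s1, sw, s3]
    unfold gt G1
    set y := P2 Ω + w * z + Ω * t / 4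
    rw [Ev_eq hL (z := y + Ω * om ^ 2 / 2) (w := y + Ω * ((1 + omr : eis) : ℂ) / 2) (1 + omr)
      (by push_cast; rw [omr_coe, om2_eq]; ring)]
    have z0 : y + Ω * ((0 : eis) : ℂ) / 2 = y := by push_cast; ring
    have z1 : y + Ω * ((1 : eis) : ℂ) / 2 = y + Ω / 2 := by push_cast; ring
    rw [z0, z1, omr_coe]
    ring
  unfold bk8
  rw [inner 0 1 (fun r => by rw [c8_0 hM, one_mul]), inner 1 (-1) (fun r => by rw [c8_1 hM]; ring),
    inner omr s (fun r => c8_w hM r), inner (1 + omr) s (fun r => c8_w1 hM r), F2v_eq]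
  ring

/-- the sum over the residue classes modulo `8√-3` -/
theorem sum_ee8 (hψ : HC 1 (sp (8 * la : eis)) ψ) (hL : IsLat L eis Ω)
    [Fintype (eis ⧸ (sp (8 * la) : Ideal eis))] {z : ℂ}
    (hz : Tor L z) : ∑ y : eis ⧸ (sp (8 * la) : Ideal eis), ee ψ y.out *
      Ev Ω (Ω * y.out / ((8 * la : eis) : ℂ) + z) =
    F2v s Ω ((1 : eis) * z) + F2v s Ω ((-1 : eis) * z) + F2v s Ω ((omr ^ 2 : eis) * z) +
      F2v s Ω ((-omr ^ 2 : eis) * z) + F2v s Ω ((omr : eis) * z) + F2v s Ω ((-omr : eis) * z) := by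
  have he := ee_eo lfp qr hψ
  have hper : ∀ x y : eis, x - y ∈ (sp (8 * la) : Ideal eis) →
      ee ψ x * Ev Ω (Ω * x / ((8 * la : eis) : ℂ) + z) =
        ee ψ y * Ev Ω (Ω * y / ((8 * la : eis) : ℂ) + z) := by
    intro x y hxy
    rw [he.per x y hxy]
    congr 1
    apply Ev_per hL
    have := (div_mem_iff hL f24_ne (x - y)).2 hxy
    convert this using 1
    push_cast
    ring
  rw [sum_f24 (fun y => ee ψ y * Ev Ω (Ω * y / ((8 * la : eis) : ℂ) + z))
    (fun x hx => by rw [ee8_ncop hψe hpsi hψ hx, zero_mul]) hper]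
  have o3 := omr_cube
  rw [bk8_ee hM hψe hpsi hL hz (u := 1) (w := 1) (one_mul 1),
    bk8_ee hM hψe hpsi hL hz (u := -1) (w := -1) (by ring),
    bk8_ee hM hψe hpsi hL hz (u := omr) (w := omr ^ 2) (by rw [← o3]; ring),
    bk8_ee hM hψe hpsi hL hz (u := -omr) (w := -omr ^ 2) (by rw [← o3]; ring),
    bk8_ee hM hψe hpsi hL hz (u := omr ^ 2) (w := omr) (by rw [← o3]; ring),
    bk8_ee hM hψe hpsi hL hz (u := -omr ^ 2) (w := -omr) (by rw [← o3]; ring)]

/-- the weighted sums of the function `HH` -/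
theorem HH_B8 (hψ : HC 1 (sp (8 * la : eis)) ψ) (hL : IsLat L eis Ω)
    [Fintype (eis ⧸ (sp (8 * la) : Ideal eis))] {c : eis}
    (hc : c ≠ 0) (hfc : IsCoprime (8 * la) c) [Fintype (eis ⧸ sp c)] {χ' : eis → ℂ}
    (hχ : Xo c χ') (hu : ∀ u : eis, IsUnit u → ∀ x, χ' (u * x) = χ' x) :
    ∑ x : eis ⧸ sp c, χ' x.out * HH L Ω (8 * la) (ee ψ) (Ω * x.out / c) =
      6 * Bw (F2v s Ω) Ω c χ' := by
  have he := ee_eo lfp qr hψ
  set Ef : ℂ := ∑ y : eis ⧸ (sp (8 * la) : Ideal eis), ee ψ y.out *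
    Ev Ω (Ω * y.out / ((8 * la : eis) : ℂ)) with hEf
  have h0 : Tendsto (fun δ : ℝ => ∑ y : eis ⧸ (sp (8 * la) : Ideal eis), ee ψ y.out *
      EE eis Ω δ (Ω * y.out / ((8 * la : eis) : ℂ))) (𝓝[>] 0) (𝓝 Ef) :=
    tendsto_finsetSum _ fun y _ => (ev_lim hL (Tor.of hL f24_ne _)).const_mul _
  have h1 : ∀ x : eis, Ph L Ω (8 * la) (ee ψ) Ef c x =
      ∑ y : eis ⧸ (sp (8 * la) : Ideal eis), ee ψ y.out *
        Ev Ω (Ω * y.out / ((8 * la : eis) : ℂ) + Ω * x / c) := by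
    intro x
    refine tendsto_nhds_unique (lim_Ph hL f24_ne hc hfc he h0 x) ?_
    exact tendsto_finsetSum _ fun y _ => (ev_lim hL ((Tor.of hL f24_ne _).add hL
      (Tor.of hL hc x))).const_mul _
  have h2 : ∑ x : eis ⧸ sp c, χ' x.out * HH L Ω (8 * la) (ee ψ) (Ω * x.out / c) =
      ∑ x : eis ⧸ sp c, χ' x.out * Ph L Ω (8 * la) (ee ψ) Ef c x.out := by
    have h3 : ∀ x : eis ⧸ sp c, χ' x.out * Ph L Ω (8 * la) (ee ψ) Ef c x.out =
        χ' x.out * HH L Ω (8 * la) (ee ψ) (Ω * x.out / c) + χ' x.out * Ef := by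
      intro x
      by_cases hx : x.out ∈ sp c
      · rw [hχ.zero _ hx]
        ring
      · rw [Ph_of_notMem hx]
        ring
    rw [Finset.sum_congr rfl fun x _ => h3 x, Finset.sum_add_distrib, ← Finset.sum_mul, hχ.sum,
      zero_mul, add_zero]
  rw [h2]
  have h4 : ∀ x : eis ⧸ sp c, χ' x.out * Ph L Ω (8 * la) (ee ψ) Ef c x.out =
      χ' x.out * F2v s Ω ((1 : eis) * (Ω * x.out / c)) +
      χ' x.out * F2v s Ω ((-1 : eis) * (Ω * x.out / c)) +
      χ' x.out * F2v s Ω ((omr ^ 2 : eis) * (Ω * x.out / c)) +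
      χ' x.out * F2v s Ω ((-omr ^ 2 : eis) * (Ω * x.out / c)) +
      χ' x.out * F2v s Ω ((omr : eis) * (Ω * x.out / c)) +
      χ' x.out * F2v s Ω ((-omr : eis) * (Ω * x.out / c)) := by
    intro x
    rw [h1, sum_ee8 hM hψe hpsi hψ hL (Tor.of hL hc _)]
    ring
  rw [Finset.sum_congr rfl fun x _ => h4 x]
  simp only [Finset.sum_add_distrib]
  have hφ : Pe c χ' := hχ.per
  have r : ∀ u : eis, IsUnit u → ∑ x : eis ⧸ sp c, χ' x.out * F2v s Ω (u * (Ω * x.out / c)) =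
      Bw (F2v s Ω) Ω c χ' := fun u h => Bw_rot hL (F2_FN hM hL) hc h hφ (hu u h)
  rw [r 1 isUnit_one, r (-1) isUnit_one.neg, r (omr ^ 2) (omr_unit.pow 2),
    r (-omr ^ 2) (omr_unit.pow 2).neg, r omr omr_unit, r (-omr) omr_unit.neg]
  ring

end

end Pool.Agent.L0h4.T5
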