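import Pool.Agent.L0h4.T5.Ind8
import Pool.Agent.L0h61.T5.Rec
import Pool.Agent.L0h1.F5.Vs
import Pool.Agent.L0h86.F5.Ev8

/-!
# The central values of the `L`-series of `y² = x³ - 8 m³`: the theorem
-/

set_option autoImplicit false
set_option linter.unusedSectionVars false

open Filter
open scoped Topology PeriodPair

namespace Pool.Agent.L0h4.T5

open H667R3 Pool.Agent.W192.HK Pool.Agent.TH936.CM
open Pool.Agent.TH936.PU hiding pf
open Pool.Agent.W192.CM (nu)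
open Pool.Agent.Y696 Pool.Agent.Y715.T.Lat Pool.Agent.Y715.Dist
open Pool.Agent.Y715.T.LF (nu_eq)
open Pool.Agent.Y715.T.Three (lam lam_ne' lam_sq)
open Pool.Agent.L0h86.F3 hiding Bv_eq
open Pool.Agent.L0h86.F5 Pool.Agent.L0h4.T4
open Pool.Agent.L0h1.F5 (F3v Wv vs8)
open Pool.Agent.L0h61.T5 (ind8)
open Pool.Agent.Y698.SG (lg lg_one lg_neg_one lg_mul sgn_mul sgn_prod ix)

variable {L : PeriodPair} {Ω : ℂ} {Γ : Type*} [LinearOrderedCommGroupWithZero Γ]
  {v : Valuation ℂ Γ}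

lemma Wv_eq {ι : Type} [DecidableEq ι] {π : ι → eis} {S : Finset ι} (h : ∀ i ∈ S, PX (π i)) :
    Wv π S = ∑ A ∈ S.powerset, F4.of (∑ j ∈ A, e2 π j) *
        (∏ i ∈ S \ A, (bt (π i) + ∑ j ∈ A, F4.of (mm π i j))) * g4 π A := by
  unfold Wv
  refine Finset.sum_congr rfl fun A hA => ?_
  rw [(sgn_prod fun i hi => sy_m2_sgn (h i (Finset.mem_powerset.1 hA hi))).2, mul_assoc]
  rfl

lemma T8_m (m : ℕ) : T8 (sm m) (tm m) := by
  unfold T8 sm tm
  by_cases h : m % 4 = 1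
  · left
    rw [if_pos h, if_pos h]
    exact ⟨rfl, rfl⟩
  · right
    rw [if_neg h, if_neg h]
    exact ⟨rfl, rfl⟩

lemma v_c8 {χ : MulChar (ZMod 8) ℤ} (hχ : X8 χ) {c : eis} (h : N1 c) :
    v (c8I χ (sp c)) = 1 := by
  obtain ⟨u, rfl⟩ := h
  rcases c8_val hχ u with h | h
  · rw [h, map_one]
  · rw [h, Valuation.map_neg, map_one]

set_option maxHeartbeats 1600000 in
/-- **the values of the `L`-series** -/
theorem valC_of (hev : S_EV8) (hpsi : S_PSI) (hhcd : S_HCD) (hgen : S_GEN) : S_VALC := by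
  intro Q P ϖ m hdt hm hne
  obtain ⟨hFX, hprod, -, -, -, hsy⟩ := hgen Q P ϖ m hdt hm
  set S := ix Q P with hS
  set π := pf Q ϖ with hπ
  set c : eis := ∏ i ∈ S, π i with hc
  have hcm : sp c = sp (m : eis) := by
    rcases hprod with ⟨h, -⟩ | ⟨h, -⟩
    · rw [h]
    · rw [h]
      exact Ideal.span_singleton_eq_span_singleton.2 (Associated.refl _).neg_left
  have hc0 : c ≠ 0 := prod_ne hFX
  have hc1 : N1 c := prod_N1 hFX
  have hco : IsCoprime (2 : eis) c := prod_odd hFX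
  have hfc : IsCoprime (8 * la) c := by
    have e8 : (8 * la : eis) = 2 * (2 * (2 * la)) := by ring
    rw [e8]
    exact hco.mul_left (hco.mul_left (hco.mul_left hc1.cop_la))
  have hM := m8_chr m
  have hX8 := hM.x8
  set ψ : Ideal eis → ℂ := fun J => psi6 J * c8I (chr8 m) J with hψe
  have hψ : HC 1 (sp (8 * la : eis)) ψ := t_PS8 hX8
  have hχ : HC 0 (sp c) (XD m) := by
    rw [hcm]
    exact hhcd Q P m hdt.q hdt.p hm hne
  obtain ⟨F, g1, g2, g3⟩ := val lbasic lfp lcnt ldec lafe lprod qr hψ hχ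
    ((Ideal.isCoprime_span_singleton_iff _ _).2 hfc)
  refine ⟨F, g1, g2, ?_⟩
  intro Γ _ v t2 L Ω hC
  have hL := hC.lat
  have hct : sp c ≠ ⊤ := by
    rw [Ne, Ideal.span_singleton_eq_top]
    intro hu
    obtain ⟨q, hq⟩ := hne
    have hi : (q, false) ∈ S := by
      rw [hS]
      unfold ix
      rw [Finset.mem_union]
      left
      rw [Finset.mem_product]
      exact ⟨hq, Finset.mem_singleton_self _⟩
    exact (hFX.pd _ hi).pr.not_isUnit (isUnit_of_dvd_unit (Finset.dvd_prod_of_mem π hi) hu)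
  have f1 := fin_quot f24_ne
  have f2 := fin_quot hc0
  let _ : Fintype (eis ⧸ (sp (8 * la) : Ideal eis)) := Fintype.ofFinite _
  let _ : Fintype (eis ⧸ sp c) := Fintype.ofFinite _
  have g4' := g3 hct L Ω hL
  have hXo := xb_xo lfp qr hχ hct
  have hunit : ∀ u : eis, IsUnit u → ∀ x, xb (XD m) (u * x) = xb (XD m) x := by
    intro u hu x
    have e : sp (u * x) = sp x := Ideal.span_singleton_mul_left_unit hu x
    unfold xb
    rw [e]
  rw [HH_B8 hM hψe hpsi hψ hL hc0 hfc hXo hunit, nu_eq] at g4'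
  have hfun : xb (XD m) = fun n => ∏ i ∈ S, sy (π i) n := by
    funext n
    rw [hsy n]
    unfold xb
    exact XD_conj m _
  have hB3 := B3_eq hM hL hc0 hXo.per hunit
  obtain ⟨θ, hθ, hvs⟩ := vs8 (v := v) (s := sm m) (κ := if m % 4 = 1 then 1 else 0) (t := tm m)
    hev hC t2 (by
      unfold sm tm
      by_cases h : m % 4 = 1
      · left
        rw [if_pos h, if_pos h, if_pos h]
        exact ⟨rfl, rfl, rfl⟩
      · right
        rw [if_neg h, if_neg h, if_neg h]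
        exact ⟨rfl, rfl, rfl⟩)
  have hv2 : v 2 ≠ 0 := by
    rw [Ne, map_eq_zero]
    norm_num
  have hθ0 : θ ≠ 0 := by
    rintro rfl
    rw [map_zero, zero_pow (by norm_num)] at hθ
    exact pow_ne_zero 13 hv2 hθ.symm
  have hind := ind8 (v := v) hL (F3_FN hM hL) hθ0 hFX (tm m)
    (fun i hi κ hκ => R4_c8 hM (T8_m m) (hFX.pd i hi) hκ) (by
      intro S' hS'
      have hF' := hFX.mono hS'
      have h5 := hvs hF'
      rw [Wv_eq fun i hi => hF'.pd i hi] at h5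
      exact h5) S subset_rfl
  rw [hfun] at g4' hB3
  refine ⟨_, hind, ?_⟩
  rw [hB3]
  set B := Bw (F2v (sm m) Ω) Ω c (fun n => ∏ i ∈ S, sy (π i) n) with hB
  have hΩ := hL.ne
  have hee : ee ψ c = c8I (chr8 m) (sp c) := by
    have h5 := ee8_n1 hψe hpsi hc1 isUnit_one
    rw [one_mul] at h5
    rw [h5]
    push_cast
    rw [one_mul]
  have hx6 : v (∏ i ∈ S, sy (π i) (8 * la)) = 1 := by
    rw [hsy]
    rcases XD_val m (sp (8 * la)) with h | h | h
    · exfalso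
      rw [hχ.zero] at h
      rcases h with h | h
      · rw [Ideal.span_singleton_eq_bot] at h
        exact f24_ne h
      · exact h ((Ideal.isCoprime_span_singleton_iff _ _).2 hfc)
    · rw [h, map_one]
    · rw [h, Valuation.map_neg, map_one]
  rw [hee] at g4'
  have hf0 : ((8 * la : eis) : ℂ) ≠ 0 := coe_ne f24_ne
  have hc0'' : (c : ℂ) ≠ 0 := coe_ne hc0
  have h20 : (2 : ℂ) ^ S.card ≠ 0 := pow_ne_zero _ two_ne_zero
  obtain ⟨X, hX⟩ : ∃ X : ℂ, 3 * B / (2 ^ S.card * θ) = X := ⟨_, rfl⟩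
  have e1 : (starRingEnd ℂ) (F 1) / Ω = (((8 * la : eis) : ℂ))⁻¹ * (c : ℂ)⁻¹ *
      c8I (chr8 m) (sp c) * (∏ i ∈ S, sy (π i) (8 * la)) * (3 : ℂ)⁻¹ * θ * (2 ^ S.card * X) := by
    have e2 : (starRingEnd ℂ) (F 1) = (6 : ℂ)⁻¹ * (((6 : ℕ) : ℂ) * (starRingEnd ℂ) (F 1)) := by
      push_cast
      ring
    rw [e2, g4', ← hX]
    field_simp
  have v8 : v 8 = v 2 ^ 3 := by
    rw [← map_pow]
    congr 1
    norm_num
  have vf : v ((8 * la : eis) : ℂ) = v 2 ^ 3 := by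
    push_cast
    rw [map_mul, v_la t2, mul_one, Pool.Agent.L0h4.T4.eight_coe, v8]
  have e3 : v ((starRingEnd ℂ) (F 1) / Ω) = (v 2 ^ 3)⁻¹ * v θ * (v 2 ^ S.card * v X) := by
    rw [e1, map_mul, map_mul, map_mul, map_mul, map_mul, map_mul, map_inv₀, map_inv₀, map_inv₀, vf,
      v_N1 t2 hc1, hx6, v_c8 hX8 hc1, v_three t2, map_mul, map_pow, inv_one, mul_one, mul_one,
      mul_one, mul_one]
  rw [hX]
  rw [e3, mul_pow, mul_pow _ (v θ), hθ]
  have e4 : ((v 2 ^ 3)⁻¹) ^ 6 * v 2 ^ 13 * (v 2 ^ 5) = 1 := by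
    rw [mul_assoc, ← pow_add, inv_pow, ← pow_mul]
    exact inv_mul_cancel₀ (pow_ne_zero _ hv2)
  calc _ = ((v 2 ^ 3)⁻¹) ^ 6 * v 2 ^ 13 * (v 2 ^ 5) *
      (v 2 ^ S.card * v X) ^ 6 := mul_right_comm _ _ _
    _ = _ := by rw [e4, one_mul]

end Pool.Agent.L0h4.T5
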